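import Mathlib

set_option autoImplicit false

/-!
A frontier-style checker for almost spanning cycles of an explicit finite graph.

The graph has vertices `0, 1, ..., n - 1` with `n ≤ 128`; an edge `a b` with `a < b` is coded by the
natural number `a * 128 + b`.  A *solution* is a set `x` of edges such that every vertex has degree
`0` or `2` in it, at most one vertex has degree `0`, and the edge set is connected in the sense that
every two-colouring of the vertices that is constant along its edges is constant on the visited
vertices.  The checker processes the vertices in the order `0, 1, ...` and keeps a list of possible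
states of the solution on the current frontier.
-/

namespace Pool.Agent.Lib.MP_321260_co

/-- Smaller end of a coded edge. -/
def src (e : ℕ) : ℕ := e / 128

/-- Larger end of a coded edge. -/
def dst (e : ℕ) : ℕ := e % 128

/-- Incidence of the coded edge `e` with the vertex `v`. -/
def incid (v e : ℕ) : Bool := src e == v || dst e == v

/-- The vertex `v` is visited by the edge set `x`. -/
def Vis (E : List ℕ) (x : ℕ → Bool) (v : ℕ) : Prop :=
  ∃ g ∈ E, x g = true ∧ incid v g = true

/-- A solution: an edge set which is a single cycle missing at most one vertex. -/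
structure Sol (E : List ℕ) (n : ℕ) (x : ℕ → Bool) : Prop where
  deg : ∀ v < n, ((E.filter (incid v)).filter x).length = 0 ∨
    ((E.filter (incid v)).filter x).length = 2
  one : ∀ v w, v < n → w < n → v ≠ w → Vis E x v ∨ Vis E x w
  conn : ∀ U : ℕ → Bool, (∀ g ∈ E, x g = true → U (src g) = U (dst g)) →
    ∀ v w, v < n → w < n → Vis E x v → Vis E x w → U v = U w

/-- The frontier statement for a pair of edges. -/
def P (E : List ℕ) (x : ℕ → Bool) (i e f : ℕ) : Prop :=
  ∃ U : ℕ → Bool, (∀ w, i ≤ w → U w = false) ∧
    ∀ g ∈ E, x g = true → (U (src g) ^^ U (dst g)) = ((g == e) ^^ (g == f))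

theorem P_refl (E : List ℕ) (x : ℕ → Bool) (i e : ℕ) : P E x i e e := by
  refine ⟨fun _ => false, fun _ _ => rfl, fun g _ _ => ?_⟩
  simp

theorem P_mono {E : List ℕ} {x : ℕ → Bool} {i j e f : ℕ} (h : i ≤ j) (hp : P E x i e f) :
    P E x j e f := by
  obtain ⟨U, h1, h2⟩ := hp
  exact ⟨U, fun w hw => h1 w (le_trans h hw), h2⟩

theorem P_swap {E : List ℕ} {x : ℕ → Bool} {i e f : ℕ} (hp : P E x i e f) :
    P E x i f e := by
  obtain ⟨U, h1, h2⟩ := hp
  refine ⟨U, h1, fun g hg hx => ?_⟩
  rw [h2 g hg hx, Bool.xor_comm]

theorem P_trans {E : List ℕ} {x : ℕ → Bool} {i a b c : ℕ} (hp : P E x i a b)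
    (hq : P E x i b c) : P E x i a c := by
  obtain ⟨U, h1, h2⟩ := hp
  obtain ⟨W, h3, h4⟩ := hq
  refine ⟨fun w => (U w ^^ W w), fun w hw => by simp [h1 w hw, h3 w hw], fun g hg hx => ?_⟩
  have e1 := h2 g hg hx
  have e2 := h4 g hg hx
  show ((U (src g) ^^ W (src g)) ^^ (U (dst g) ^^ W (dst g))) = ((g == a) ^^ (g == c))
  revert e1 e2
  generalize U (src g) = u1
  generalize U (dst g) = u2
  generalize W (src g) = w1
  generalize W (dst g) = w2
  generalize (g == a) = ga
  generalize (g == b) = gb
  generalize (g == c) = gc
  revert u1 u2 w1 w2 ga gb gc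
  decide

/-- Membership of a pair, in either order. -/
def memP (ps : List (ℕ × ℕ)) (a b : ℕ) : Bool :=
  ps.any fun p => (p.1 == a && p.2 == b) || (p.1 == b && p.2 == a)

/-- Membership of a pair or equality. -/
def eqP (ps : List (ℕ × ℕ)) (a b : ℕ) : Bool := a == b || memP ps a b

/-- The frontier edges that occur in the pairs. -/
def usd (ps : List (ℕ × ℕ)) (g : ℕ) : Bool := ps.any fun p => p.1 == g || p.2 == g

/-- Evaluate `F` on the two elements of a two-element list; `false` on other lists. -/
def on2 (T : List ℕ) (F : ℕ → ℕ → Bool) : Bool :=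
  match T with
  | [g, h] => F g h
  | _ => false

theorem on2_true {T : List ℕ} {F : ℕ → ℕ → Bool} (h : on2 T F = true) :
    ∃ a b, T = [a, b] ∧ F a b = true := by
  rcases T with _ | ⟨a, _ | ⟨b, _ | ⟨c, T⟩⟩⟩
  · simp [on2] at h
  · simp [on2] at h
  · exact ⟨a, b, rfl, h⟩
  · simp [on2] at h

/-- The pair `e f` follows from the pairs `ps` and the two edges `T` at the new vertex. -/
def der (ps : List (ℕ × ℕ)) (T : List ℕ) (e f : ℕ) : Bool :=
  memP ps e f || on2 T fun g h => (eqP ps e g && eqP ps h f) || (eqP ps e h && eqP ps g f)

/-- All sublists of a list. -/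
def subs : List ℕ → List (List ℕ)
  | [] => [[]]
  | a :: l => subs l ++ (subs l).map (fun t => a :: t)

theorem filter_mem_subs (x : ℕ → Bool) (l : List ℕ) : l.filter x ∈ subs l := by
  induction l with
  | nil => simp [subs]
  | cons a l ih =>
    rw [subs, List.mem_append]
    cases hx : x a
    · left
      rw [List.filter_cons_of_neg (by simp [hx])]
      exact ih
    · right
      rw [List.filter_cons_of_pos (by simp [hx])]
      exact List.mem_map.2 ⟨_, ih, rfl⟩

/-- A state: the pairing of the used frontier edges, whether a vertex was missed, whether the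
solution already deviated from the designated cycle. -/
abbrev St := List (ℕ × ℕ) × Bool × Bool

/-- Data for one vertex: incident edges, frontier after it, states after it. -/
abbrev Lvl := List ℕ × List ℕ × List St

/-- The usage `T` of the vertex `v` is impossible in the state `q`. -/
def dead (n v : ℕ) (inc : List ℕ) (q : St) (T : List ℕ) : Bool :=
  (inc.any fun g => dst g == v && (T.elem g != usd q.1 g)) ||
  (T.isEmpty && q.2.1) ||
  (on2 T fun g h => memP q.1 g h && (decide (v + 2 < n) || (decide (v + 1 < n) && q.2.1)))

/-- The usage `T` of the last vertex completes the designated cycle. -/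
def fin (n v : ℕ) (Cl inc : List ℕ) (q : St) (T : List ℕ) : Bool :=
  (v + 1 == n) && !q.2.2 && (T == inc.filter (fun g => Cl.elem g))

/-- The state `q'` after `v` correctly describes what follows from the state `q` and usage `T`. -/
def chk (v : ℕ) (Cl inc fr : List ℕ) (q : St) (T : List ℕ) (q' : St) : Bool :=
  (fr.all fun g => usd q'.1 g == (if src g == v then T.elem g else usd q.1 g)) &&
  (q'.1.all fun p => der q.1 T p.1 p.2) &&
  (!q'.2.1 || (q.2.1 || T.isEmpty)) &&
  (q'.2.2 || (!q.2.2 && (T == inc.filter (fun g => Cl.elem g))))

/-- The incident list and the frontier list of a level are right. -/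
def lvlOK (E : List ℕ) (v : ℕ) (inc fr : List ℕ) : Bool :=
  (inc == E.filter (incid v)) &&
  E.all fun g => !(decide (src g ≤ v) && decide (v < dst g)) || fr.elem g

/-- The whole run of the checker. -/
def run (E Cl : List ℕ) (n : ℕ) : ℕ → List Lvl → List St → Bool
  | _, [], Qs => Qs.isEmpty
  | v, l :: ls, Qs =>
    lvlOK E v l.1 l.2.1 &&
    (Qs.all fun q => (subs l.1).all fun T =>
      (!(T.length == 0 || T.length == 2)) || dead n v l.1 q T || fin n v Cl l.1 q T ||
        l.2.2.any fun q' => chk v Cl l.1 l.2.1 q T q') &&
    run E Cl n (v + 1) ls l.2.2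

/-- Meaning of a state. -/
structure Sem (E Cl : List ℕ) (x : ℕ → Bool) (n v : ℕ) (q : St) : Prop where
  front : ∀ g ∈ E, src g < v → v ≤ dst g → x g = usd q.1 g
  pairs : ∀ p ∈ q.1, P E x v p.1 p.2
  miss : q.2.1 = true → ∃ w < v, ¬ Vis E x w
  dev : q.2.2 = false → ∀ g ∈ E, src g < v → x g = Cl.elem g

theorem memP_P {E : List ℕ} {x : ℕ → Bool} {i : ℕ} {ps : List (ℕ × ℕ)}
    (hps : ∀ p ∈ ps, P E x i p.1 p.2) {a b : ℕ} (h : memP ps a b = true) : P E x i a b := by
  rw [memP, List.any_eq_true] at h
  obtain ⟨p, hp, h⟩ := h
  rw [Bool.or_eq_true, Bool.and_eq_true, Bool.and_eq_true] at h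
  rcases h with ⟨h1, h2⟩ | ⟨h1, h2⟩
  · rw [beq_iff_eq] at h1 h2
    subst h1; subst h2
    exact hps p hp
  · rw [beq_iff_eq] at h1 h2
    subst h1; subst h2
    exact P_swap (hps p hp)

theorem eqP_P {E : List ℕ} {x : ℕ → Bool} {i : ℕ} {ps : List (ℕ × ℕ)}
    (hps : ∀ p ∈ ps, P E x i p.1 p.2) {a b : ℕ} (h : eqP ps a b = true) : P E x i a b := by
  rw [eqP, Bool.or_eq_true] at h
  rcases h with h | h
  · rw [beq_iff_eq] at h
    subst h
    exact P_refl _ _ _ _
  · exact memP_P hps h

/-- Well-formed edge lists. -/
def wf (E : List ℕ) (n : ℕ) : Bool :=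
  decide E.Nodup && E.all fun g => decide (src g < dst g) && decide (dst g < n)

section sound

variable {E Cl : List ℕ} {x : ℕ → Bool} {n v : ℕ}

theorem incid_iff {v g : ℕ} : incid v g = true ↔ src g = v ∨ dst g = v := by
  simp [incid]

theorem mem_use {g : ℕ} : g ∈ (E.filter (incid v)).filter x ↔
    g ∈ E ∧ x g = true ∧ incid v g = true := by
  simp only [List.mem_filter]
  tauto

/-- The two edges at a visited vertex. -/
theorem P_vertex (hnd : E.Nodup) (hlt : ∀ g ∈ E, src g < dst g) {g h : ℕ}
    (hT : (E.filter (incid v)).filter x = [g, h]) : P E x (v + 1) g h := by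
  refine ⟨fun w => w == v, fun w hw => ?_, fun k hk hx => ?_⟩
  · have : w ≠ v := by omega
    simpa using this
  · have hnd' : [g, h].Nodup := by
      rw [← hT]
      exact (hnd.filter _).filter _
    have hgh : g ≠ h := by
      intro e
      subst e
      simp at hnd'
    have hmem : k ∈ [g, h] ↔ (k ∈ E ∧ x k = true ∧ incid v k = true) := by
      rw [← hT]; exact mem_use
    have hlt' := hlt k hk
    by_cases hi : incid v k = true
    · have hk' : k = g ∨ k = h := by
        have := hmem.2 ⟨hk, hx, hi⟩
        simpa using this
      have h1 : ((k == g) ^^ (k == h)) = true := by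
        rcases hk' with rfl | rfl
        · have : (k == h) = false := by simpa using hgh
          simp [this]
        · have : (k == g) = false := by simpa using (Ne.symm hgh)
          simp [this]
      have h2 : ((src k == v) ^^ (dst k == v)) = true := by
        rcases incid_iff.1 hi with e | e
        · have : (dst k == v) = false := by
            simp only [beq_eq_false_iff_ne]; omega
          simp [this, e]
        · have : (src k == v) = false := by
            simp only [beq_eq_false_iff_ne]; omega
          simp [this, e]
      rw [h1]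
      exact h2
    · have hk' : ¬ (k = g ∨ k = h) := by
        intro hc
        apply hi
        have : k ∈ [g, h] := by simpa using hc
        exact (hmem.1 this).2.2
      rw [not_or] at hk'
      have h1 : ((k == g) ^^ (k == h)) = false := by
        have a : (k == g) = false := by simpa using hk'.1
        have b : (k == h) = false := by simpa using hk'.2
        simp [a, b]
      have h2 : ((src k == v) ^^ (dst k == v)) = false := by
        rw [incid_iff, not_or] at hi
        have a : (src k == v) = false := by simpa using hi.1
        have b : (dst k == v) = false := by simpa using hi.2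
        simp [a, b]
      rw [h1]
      exact h2

/-- A closed cycle before the end is impossible. -/
theorem closed_absurd (hs : Sol E n x) (hnd : E.Nodup) (hlt : ∀ g ∈ E, src g < dst g)
    (hv : v < n) {g h : ℕ} (hT : (E.filter (incid v)).filter x = [g, h])
    (hp : P E x v g h) {w : ℕ} (hw : v < w) (hwn : w < n) (hvis : Vis E x w) : False := by
  obtain ⟨U, h1, h2⟩ := hp
  obtain ⟨W, h3, h4⟩ := P_vertex hnd hlt hT
  have hvv : Vis E x v := by
    have : g ∈ (E.filter (incid v)).filter x := by rw [hT]; simp
    rw [mem_use] at this
    exact ⟨g, this.1, this.2.1, this.2.2⟩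
  -- recompute with the explicit colouring of the vertex `v`
  have hx : ∀ k ∈ E, x k = true →
      ((src k == v) ^^ (dst k == v)) = ((k == g) ^^ (k == h)) := by
    intro k hk hxk
    have hnd' : [g, h].Nodup := by
      rw [← hT]
      exact (hnd.filter _).filter _
    have hgh : g ≠ h := by
      intro e
      subst e
      simp at hnd'
    have hmem : k ∈ [g, h] ↔ (k ∈ E ∧ x k = true ∧ incid v k = true) := by
      rw [← hT]; exact mem_use
    have hlt' := hlt k hk
    by_cases hi : incid v k = true
    · have hk' : k = g ∨ k = h := by
        have := hmem.2 ⟨hk, hxk, hi⟩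
        simpa using this
      have h1 : ((k == g) ^^ (k == h)) = true := by
        rcases hk' with rfl | rfl
        · have : (k == h) = false := by simpa using hgh
          simp [this]
        · have : (k == g) = false := by simpa using (Ne.symm hgh)
          simp [this]
      have h2 : ((src k == v) ^^ (dst k == v)) = true := by
        rcases incid_iff.1 hi with e | e
        · have : (dst k == v) = false := by
            simp only [beq_eq_false_iff_ne]; omega
          simp [this, e]
        · have : (src k == v) = false := by
            simp only [beq_eq_false_iff_ne]; omega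
          simp [this, e]
      rw [h1, h2]
    · have hk' : ¬ (k = g ∨ k = h) := by
        intro hc
        apply hi
        have : k ∈ [g, h] := by simpa using hc
        exact (hmem.1 this).2.2
      rw [not_or] at hk'
      have h1 : ((k == g) ^^ (k == h)) = false := by
        have a : (k == g) = false := by simpa using hk'.1
        have b : (k == h) = false := by simpa using hk'.2
        simp [a, b]
      have h2 : ((src k == v) ^^ (dst k == v)) = false := by
        rw [incid_iff, not_or] at hi
        have a : (src k == v) = false := by simpa using hi.1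
        have b : (dst k == v) = false := by simpa using hi.2
        simp [a, b]
      rw [h1, h2]
  have key := hs.conn (fun w => (U w ^^ (w == v))) (by
    intro k hk hxk
    have e1 := h2 k hk hxk
    have e2 := hx k hk hxk
    have e3 : (U (src k) ^^ U (dst k)) = ((src k == v) ^^ (dst k == v)) := by rw [e1, e2]
    revert e3
    generalize U (src k) = a
    generalize U (dst k) = b
    generalize (src k == v) = c
    generalize (dst k == v) = d
    revert a b c d
    decide) v w hv hwn hvv hvis
  have e1 : U v = false := h1 v le_rfl
  have e2 : U w = false := h1 w (le_of_lt hw)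
  have e3 : (w == v) = false := by
    simp only [beq_eq_false_iff_ne]; omega
  simp only [e1, e2, e3] at key
  simp at key

theorem sound_aux (hs : Sol E n x) (hnd : E.Nodup) (hlt : ∀ g ∈ E, src g < dst g)
    (hn : ∀ g ∈ E, dst g < n) :
    ∀ (L : List Lvl) (v : ℕ) (Qs : List St), v + L.length = n →
      run E Cl n v L Qs = true → (∃ q ∈ Qs, Sem E Cl x n v q) → ∀ g ∈ E, x g = Cl.elem g := by
  intro L
  induction L with
  | nil =>
    intro v Qs _ hr ⟨q, hq, _⟩
    rw [run, List.isEmpty_iff] at hr
    rw [hr] at hq
    simp at hq
  | cons l ls ih =>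
    intro v Qs hlen hr ⟨q, hq, hsem⟩
    rw [run, Bool.and_eq_true, Bool.and_eq_true] at hr
    obtain ⟨⟨hl, hall⟩, hrest⟩ := hr
    have hlen' : v + 1 + ls.length = n := by
      rw [List.length_cons] at hlen; omega
    have hv : v < n := by omega
    rw [lvlOK, Bool.and_eq_true, beq_iff_eq, List.all_eq_true] at hl
    obtain ⟨hinc, hfr⟩ := hl
    -- the actual usage
    obtain ⟨T, hTdef⟩ : ∃ T, T = l.1.filter x := ⟨_, rfl⟩
    have hT : (E.filter (incid v)).filter x = T := by rw [hTdef, hinc]
    rw [List.all_eq_true] at hall
    have hall1 := hall q hq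
    rw [List.all_eq_true] at hall1
    have hc := hall1 T (hTdef ▸ filter_mem_subs x l.1)
    have hmemT : ∀ g, g ∈ T ↔ g ∈ E ∧ x g = true ∧ incid v g = true := by
      intro g; rw [← hT]; exact mem_use
    have hdeg := hs.deg v hv
    rw [hT] at hdeg
    rw [Bool.or_eq_true, Bool.or_eq_true, Bool.or_eq_true] at hc
    rcases hc with ((hc | hc) | hc) | hc
    · exfalso
      rcases hdeg with h | h <;> simp [h] at hc
    · -- dead
      exfalso
      rw [dead, Bool.or_eq_true, Bool.or_eq_true] at hc
      rcases hc with (hc | hc) | hc
      · rw [List.any_eq_true] at hc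
        obtain ⟨g, hg, hc⟩ := hc
        rw [Bool.and_eq_true, beq_iff_eq] at hc
        obtain ⟨hd, hc⟩ := hc
        have hgE : g ∈ E := by
          rw [hinc] at hg
          exact (List.mem_filter.1 hg).1
        have hsrc : src g < v := by rw [← hd]; exact hlt g hgE
        have hf := hsem.front g hgE hsrc (le_of_eq hd.symm)
        have hT' : T.elem g = x g := by
          have hinc' : incid v g = true := incid_iff.2 (Or.inr hd)
          cases hxg : x g
          · have : g ∉ T := by
              intro h
              rw [hmemT] at h
              rw [hxg] at h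
              exact absurd h.2.1 (by simp)
            simpa using this
          · have : g ∈ T := (hmemT g).2 ⟨hgE, hxg, hinc'⟩
            simpa using this
        rw [hT', hf] at hc
        simp at hc
      · rw [Bool.and_eq_true, List.isEmpty_iff] at hc
        obtain ⟨hTe, hm⟩ := hc
        obtain ⟨w, hw, hnv⟩ := hsem.miss hm
        have hvn : ¬ Vis E x v := by
          rintro ⟨g, hg, hx, hi⟩
          have : g ∈ T := (hmemT g).2 ⟨hg, hx, hi⟩
          rw [hTe] at this
          simp at this
        rcases hs.one v w hv (by omega) (by omega) with h | h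
        · exact hvn h
        · exact hnv h
      · obtain ⟨g, h, hTe, hc⟩ := on2_true hc
        simp only [Bool.and_eq_true, Bool.or_eq_true, decide_eq_true_eq] at hc
        obtain ⟨hmp, hc⟩ := hc
        rw [hTe] at hT
        have hp := memP_P hsem.pairs hmp
        rcases hc with hc | ⟨hc, hm⟩
        · rcases hs.one (v + 1) (v + 2) (by omega) (by omega) (by omega) with h' | h'
          · exact closed_absurd hs hnd hlt hv hT hp (by omega) (by omega) h'
          · exact closed_absurd hs hnd hlt hv hT hp (by omega) (by omega) h'
        · obtain ⟨w, hw, hnv⟩ := hsem.miss hm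
          rcases hs.one (v + 1) w (by omega) (by omega) (by omega) with h' | h'
          · exact closed_absurd hs hnd hlt hv hT hp (by omega) (by omega) h'
          · exact hnv h'
    · -- finished
      rw [fin, Bool.and_eq_true, Bool.and_eq_true, beq_iff_eq, beq_iff_eq] at hc
      obtain ⟨⟨h1, h2⟩, h3⟩ := hc
      have hdev : q.2.2 = false := by simpa using h2
      intro g hg
      have hsn : src g < n := lt_trans (hlt g hg) (hn g hg)
      by_cases hsv : src g < v
      · exact hsem.dev hdev g hg hsv
      · have hsv' : src g = v := by omega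
        have hi : incid v g = true := incid_iff.2 (Or.inl hsv')
        have hgi : g ∈ l.1 := by
          rw [hinc]; exact List.mem_filter.2 ⟨hg, hi⟩
        have h4 : g ∈ l.1.filter x ↔ g ∈ l.1.filter (fun g => Cl.elem g) := by
          rw [← hTdef, h3]
        rw [List.mem_filter, List.mem_filter] at h4
        have h5 : x g = true ↔ Cl.elem g = true :=
          ⟨fun h => (h4.1 ⟨hgi, h⟩).2, fun h => (h4.2 ⟨hgi, h⟩).2⟩
        exact Bool.eq_iff_iff.2 h5
    · -- next
      rw [List.any_eq_true] at hc
      obtain ⟨q', hq', hc⟩ := hc
      refine ih (v + 1) l.2.2 hlen' hrest ⟨q', hq', ?_⟩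
      rw [chk, Bool.and_eq_true, Bool.and_eq_true, Bool.and_eq_true] at hc
      obtain ⟨⟨⟨c1, c2⟩, c3⟩, c4⟩ := hc
      rw [List.all_eq_true] at c1 c2
      have hps : ∀ p ∈ q.1, P E x (v + 1) p.1 p.2 := fun p hp =>
        P_mono (Nat.le_succ v) (hsem.pairs p hp)
      refine ⟨?_, ?_, ?_, ?_⟩
      · intro g hg h1 h2
        have hin : g ∈ l.2.1 := by
          have := hfr g hg
          rw [Bool.or_eq_true] at this
          rcases this with h | h
          · exfalso
            have a1 : src g ≤ v := by omega
            have a2 : v < dst g := by omega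
            simp [a1, a2] at h
          · simpa using h
        have h3 := c1 g hin
        rw [beq_iff_eq] at h3
        rw [h3]
        by_cases hsv : src g = v
        · have hi : incid v g = true := incid_iff.2 (Or.inl hsv)
          rw [if_pos (by simpa using hsv)]
          cases hxg : x g
          · have : g ∉ T := by
              intro h
              rw [hmemT] at h
              rw [hxg] at h
              exact absurd h.2.1 (by simp)
            symm
            simpa using this
          · have : g ∈ T := (hmemT g).2 ⟨hg, hxg, hi⟩
            symm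
            simpa using this
        · rw [if_neg (by simpa using hsv)]
          exact hsem.front g hg (by omega) (by omega)
      · intro p hp
        have h3 := c2 p hp
        rw [der, Bool.or_eq_true] at h3
        rcases h3 with h3 | h3
        · exact memP_P hps h3
        · obtain ⟨g, h, hTe, h3⟩ := on2_true h3
          rw [hTe] at hT
          have hgh := P_vertex hnd hlt hT
          simp only [Bool.and_eq_true, Bool.or_eq_true] at h3
          rcases h3 with ⟨a1, a2⟩ | ⟨a1, a2⟩
          · exact P_trans (eqP_P hps a1) (P_trans hgh (eqP_P hps a2))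
          · exact P_trans (eqP_P hps a1) (P_trans (P_swap hgh) (eqP_P hps a2))
      · intro hm
        rw [hm] at c3
        simp only [Bool.not_true, Bool.false_or, Bool.or_eq_true, List.isEmpty_iff] at c3
        rcases c3 with c3 | c3
        · obtain ⟨w, hw, hnv⟩ := hsem.miss c3
          exact ⟨w, by omega, hnv⟩
        · refine ⟨v, by omega, ?_⟩
          rintro ⟨g, hg, hx, hi⟩
          have : g ∈ T := (hmemT g).2 ⟨hg, hx, hi⟩
          rw [c3] at this
          simp at this
      · intro hd g hg hsg
        rw [hd] at c4
        simp only [Bool.false_or, Bool.and_eq_true, beq_iff_eq, Bool.not_eq_true'] at c4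
        obtain ⟨c5, c6⟩ := c4
        by_cases hsv : src g < v
        · exact hsem.dev c5 g hg hsv
        · have hsv' : src g = v := by omega
          have hi : incid v g = true := incid_iff.2 (Or.inl hsv')
          have hgi : g ∈ l.1 := by
            rw [hinc]; exact List.mem_filter.2 ⟨hg, hi⟩
          have h4 : g ∈ l.1.filter x ↔ g ∈ l.1.filter (fun g => Cl.elem g) := by
            rw [← hTdef, c6]
          rw [List.mem_filter, List.mem_filter] at h4
          have h5 : x g = true ↔ Cl.elem g = true :=
            ⟨fun h => (h4.1 ⟨hgi, h⟩).2, fun h => (h4.2 ⟨hgi, h⟩).2⟩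
          exact Bool.eq_iff_iff.2 h5

/-- Soundness of the checker. -/
theorem sound (hs : Sol E n x) (hwf : wf E n = true) (L : List Lvl) (hL : L.length = n)
    (hr : run E Cl n 0 L [([], false, false)] = true) : ∀ g ∈ E, x g = Cl.elem g := by
  rw [wf, Bool.and_eq_true, decide_eq_true_eq, List.all_eq_true] at hwf
  obtain ⟨hnd, hall⟩ := hwf
  have hlt : ∀ g ∈ E, src g < dst g := by
    intro g hg
    have := hall g hg
    simp only [Bool.and_eq_true, decide_eq_true_eq] at this
    exact this.1
  have hn : ∀ g ∈ E, dst g < n := by
    intro g hg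
    have := hall g hg
    simp only [Bool.and_eq_true, decide_eq_true_eq] at this
    exact this.2
  refine sound_aux hs hnd hlt hn L 0 _ (by omega) hr ⟨_, List.mem_singleton.2 rfl, ?_⟩
  refine ⟨?_, ?_, ?_, ?_⟩
  · intro g _ h; omega
  · intro p hp; simp at hp
  · intro h; simp at h
  · intro _ g _ h; omega

end sound

end Pool.Agent.Lib.MP_321260_co
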