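import Mathlib

set_option autoImplicit false

/-!
Cycles as relations: from Hamiltonian cycles of a graph, and of a graph with one edge contracted, to
adjacency relations of cycles in the original graph.
-/

namespace Pool.Agent.Lib.MP_321260_co

/-- `R` is the adjacency relation of a cycle whose set of vertices is `vis`. -/
structure CycRel {α : Type*} (R : α → α → Prop) (vis : α → Prop) : Prop where
  symm : ∀ a b, R a b → R b a
  two : ∀ a, vis a → ∃ b c, b ≠ c ∧ ∀ d, R a d ↔ d = b ∨ d = c
  none : ∀ a, ¬ vis a → ∀ d, ¬ R a d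
  conn : ∀ U : α → Prop, (∀ a b, R a b → (U a ↔ U b)) → ∀ a b, vis a → vis b → (U a ↔ U b)

/-- A Hamiltonian cycle as a relation. -/
theorem exists_cycRel {α : Type*} [Fintype α] [DecidableEq α] (H : SimpleGraph α)
    (hc : Fintype.card α ≠ 1) (hH : H.IsHamiltonian) :
    ∃ R : α → α → Prop, CycRel R (fun _ => True) ∧ ∀ a b, R a b → H.Adj a b := by
  obtain ⟨a₀, p, hp⟩ := hH hc
  refine ⟨fun a b => p.toSubgraph.Adj a b, ⟨?_, ?_, ?_, ?_⟩, fun a b h => p.toSubgraph.adj_sub h⟩
  · intro a b h
    exact h.symm
  · intro a _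
    have h2 := hp.isCycle.ncard_neighborSet_toSubgraph_eq_two (hp.mem_support a)
    obtain ⟨b, c, hbc, hs⟩ := Set.ncard_eq_two.1 h2
    refine ⟨b, c, hbc, fun d => ?_⟩
    have : d ∈ p.toSubgraph.neighborSet a ↔ d ∈ ({b, c} : Set α) := by rw [hs]
    simpa using this
  · intro a h
    exact absurd trivial h
  · intro U hU a b _ _
    have key : ∀ i, i ≤ p.length → (U (p.getVert i) ↔ U a₀) := by
      intro i
      induction i with
      | zero => intro _; simp
      | succ i ih =>
        intro hi
        have h1 := p.toSubgraph_adj_getVert (show i < p.length by omega)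
        exact (hU _ _ h1).symm.trans (ih (by omega))
    have key2 : ∀ c, U c ↔ U a₀ := by
      intro c
      obtain ⟨i, hi, hle⟩ := SimpleGraph.Walk.mem_support_iff_exists_getVert.1 (hp.mem_support c)
      rw [← hi]
      exact key i hle
    exact (key2 a).trans (key2 b).symm

/-- Transport of a cycle along an injective map. -/
theorem CycRel.map {α β : Type*} {R : α → α → Prop} (hR : CycRel R (fun _ => True))
    (g : α → β) (hg : Function.Injective g) :
    CycRel (fun a b => ∃ a' b', R a' b' ∧ g a' = a ∧ g b' = b) (fun b => ∃ a, g a = b) := by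
  refine ⟨?_, ?_, ?_, ?_⟩
  · rintro a b ⟨a', b', h, h1, h2⟩
    exact ⟨b', a', hR.symm _ _ h, h2, h1⟩
  · rintro _ ⟨a, rfl⟩
    obtain ⟨b, c, hbc, h⟩ := hR.two a trivial
    refine ⟨g b, g c, fun e => hbc (hg e), fun d => ⟨?_, ?_⟩⟩
    · rintro ⟨a', b', h1, h2, rfl⟩
      have := hg h2
      subst this
      rcases (h b').1 h1 with rfl | rfl
      · exact Or.inl rfl
      · exact Or.inr rfl
    · rintro (rfl | rfl)
      · exact ⟨a, b, (h b).2 (Or.inl rfl), rfl, rfl⟩
      · exact ⟨a, c, (h c).2 (Or.inr rfl), rfl, rfl⟩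
  · rintro b hb d ⟨a', b', _, h2, _⟩
    exact hb ⟨a', h2⟩
  · rintro U hU _ _ ⟨a, rfl⟩ ⟨b, rfl⟩
    exact hR.conn (fun a => U (g a)) (fun a b h => hU _ _ ⟨a, b, h, rfl, rfl⟩) a b trivial trivial

/-- Subdivision of one edge of a cycle by a new vertex `v`. -/
theorem CycRel.subdivide {V : Type*} {v : V} {R : {x : V // x ≠ v} → {x : V // x ≠ v} → Prop}
    (hR : CycRel R (fun _ => True)) (hirr : ∀ a, ¬ R a a) (s t : {x : V // x ≠ v})
    (hst : R s t) :
    CycRel (fun a b => (s(a, b) ≠ s(s.1, t.1) ∧ ∃ (ha : a ≠ v) (hb : b ≠ v), R ⟨a, ha⟩ ⟨b, hb⟩) ∨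
      s(a, b) = s(s.1, v) ∨ s(a, b) = s(v, t.1)) (fun _ => True) := by
  obtain ⟨s, hs⟩ := s
  obtain ⟨t, ht⟩ := t
  have hne : s ≠ t := by
    rintro rfl
    exact hirr _ hst
  refine ⟨?_, ?_, ?_, ?_⟩
  · rintro a b (⟨h1, ha, hb, h⟩ | h | h)
    · exact Or.inl ⟨by rwa [Sym2.eq_swap], hb, ha, hR.symm _ _ h⟩
    · exact Or.inr (Or.inl (by rwa [Sym2.eq_swap]))
    · exact Or.inr (Or.inr (by rwa [Sym2.eq_swap]))
  · intro a _
    by_cases hav : a = v
    · subst hav
      refine ⟨s, t, hne, fun d => ⟨?_, ?_⟩⟩
      · rintro (⟨_, ha, _⟩ | h | h)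
        · exact absurd rfl ha
        · rw [Sym2.eq_iff] at h
          rcases h with ⟨h, _⟩ | ⟨_, h⟩
          · exact absurd h.symm hs
          · exact Or.inl h
        · rw [Sym2.eq_iff] at h
          rcases h with ⟨_, h⟩ | ⟨h, _⟩
          · exact Or.inr h
          · exact absurd h.symm ht
      · rintro (rfl | rfl)
        · exact Or.inr (Or.inl Sym2.eq_swap)
        · exact Or.inr (Or.inr rfl)
    · by_cases has : a = s
      · subst has
        obtain ⟨b, c, hbc, h⟩ := hR.two ⟨a, hs⟩ trivial
        -- one of `b`, `c` is `t`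
        have key : ∃ b' : {x : V // x ≠ v}, b'.1 ≠ t ∧
            ∀ d, R ⟨a, hs⟩ d ↔ d = b' ∨ d = ⟨t, ht⟩ := by
          rcases (h _).1 hst with e | e
          · exact ⟨c, fun e' => hbc (e.symm.trans (Subtype.ext e'.symm)), fun d => by
              rw [h d, e]; exact or_comm⟩
          · exact ⟨b, fun e' => hbc ((Subtype.ext e').trans e), fun d => by rw [h d, e]⟩
        obtain ⟨b', hb', hk⟩ := key
        refine ⟨b'.1, v, b'.2, fun d => ⟨?_, ?_⟩⟩
        · rintro (⟨h1, ha, hd, h2⟩ | h | h)
          · rcases (hk _).1 h2 with e | e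
            · exact Or.inl (congrArg Subtype.val e)
            · exfalso
              apply h1
              have : d = t := congrArg Subtype.val e
              rw [this]
          · rw [Sym2.eq_iff] at h
            rcases h with ⟨_, h⟩ | ⟨h, _⟩
            · exact Or.inr h
            · exact absurd h hav
          · rw [Sym2.eq_iff] at h
            rcases h with ⟨h, _⟩ | ⟨h, _⟩
            · exact absurd h hav
            · exact absurd h hne
        · rintro (rfl | rfl)
          · refine Or.inl ⟨?_, hs, b'.2, (hk _).2 (Or.inl rfl)⟩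
            intro e
            rw [Sym2.eq_iff] at e
            rcases e with ⟨_, e⟩ | ⟨e, _⟩
            · exact hb' e
            · exact hne e
          · exact Or.inr (Or.inl rfl)
      · by_cases hat : a = t
        · subst hat
          obtain ⟨b, c, hbc, h⟩ := hR.two ⟨a, ht⟩ trivial
          have key : ∃ b' : {x : V // x ≠ v}, b'.1 ≠ s ∧
              ∀ d, R ⟨a, ht⟩ d ↔ d = b' ∨ d = ⟨s, hs⟩ := by
            rcases (h _).1 (hR.symm _ _ hst) with e | e
            · exact ⟨c, fun e' => hbc (e.symm.trans (Subtype.ext e'.symm)), fun d => by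
                rw [h d, e]; exact or_comm⟩
            · exact ⟨b, fun e' => hbc ((Subtype.ext e').trans e), fun d => by rw [h d, e]⟩
          obtain ⟨b', hb', hk⟩ := key
          refine ⟨b'.1, v, b'.2, fun d => ⟨?_, ?_⟩⟩
          · rintro (⟨h1, ha, hd, h2⟩ | h | h)
            · rcases (hk _).1 h2 with e | e
              · exact Or.inl (congrArg Subtype.val e)
              · exfalso
                apply h1
                have : d = s := congrArg Subtype.val e
                rw [this]; exact Sym2.eq_swap
            · rw [Sym2.eq_iff] at h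
              rcases h with ⟨h, _⟩ | ⟨h, _⟩
              · exact absurd h has
              · exact absurd h hav
            · rw [Sym2.eq_iff] at h
              rcases h with ⟨h, _⟩ | ⟨_, h⟩
              · exact absurd h hav
              · exact Or.inr h
          · rintro (rfl | rfl)
            · refine Or.inl ⟨?_, ht, b'.2, (hk _).2 (Or.inl rfl)⟩
              intro e
              rw [Sym2.eq_iff] at e
              rcases e with ⟨e, _⟩ | ⟨_, e⟩
              · exact has e
              · exact hb' e
            · exact Or.inr (Or.inr Sym2.eq_swap)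
        · obtain ⟨b, c, hbc, h⟩ := hR.two ⟨a, hav⟩ trivial
          refine ⟨b.1, c.1, fun e => hbc (Subtype.ext e), fun d => ⟨?_, ?_⟩⟩
          · rintro (⟨h1, ha, hd, h2⟩ | h | h)
            · rcases (h _).1 h2 with e | e
              · exact Or.inl (congrArg Subtype.val e)
              · exact Or.inr (congrArg Subtype.val e)
            · rw [Sym2.eq_iff] at h
              rcases h with ⟨h, _⟩ | ⟨h, _⟩
              · exact absurd h has
              · exact absurd h hav
            · rw [Sym2.eq_iff] at h
              rcases h with ⟨h, _⟩ | ⟨h, _⟩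
              · exact absurd h hav
              · exact absurd h hat
          · intro hd
            have h3 : ∀ w : {x : V // x ≠ v}, R ⟨a, hav⟩ w →
                (s(a, w.1) ≠ s(s, t) ∧ ∃ (ha : a ≠ v) (hb : w.1 ≠ v), R ⟨a, ha⟩ ⟨w.1, hb⟩) := by
              intro w hw
              refine ⟨fun e => ?_, hav, w.2, hw⟩
              rw [Sym2.eq_iff] at e
              rcases e with ⟨e, _⟩ | ⟨e, _⟩
              · exact has e
              · exact hat e
            rcases hd with rfl | rfl
            · exact Or.inl (h3 b ((h b).2 (Or.inl rfl)))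
            · exact Or.inl (h3 c ((h c).2 (Or.inr rfl)))
  · intro a h
    exact absurd trivial h
  · intro U hU a b _ _
    have h1 : U s ↔ U v := hU s v (Or.inr (Or.inl rfl))
    have h2 : U v ↔ U t := hU v t (Or.inr (Or.inr rfl))
    have h3 := hR.conn (fun w => U w.1) (by
      intro c d hcd
      by_cases e : s(c.1, d.1) = s(s, t)
      · rw [Sym2.eq_iff] at e
        rcases e with ⟨e1, e2⟩ | ⟨e1, e2⟩
        · show U c.1 ↔ U d.1
          rw [e1, e2]; exact h1.trans h2
        · show U c.1 ↔ U d.1
          rw [e1, e2]; exact (h1.trans h2).symm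
      · exact hU c.1 d.1 (Or.inl ⟨e, c.2, d.2, hcd⟩))
    have h4 : ∀ c, U c ↔ U s := by
      intro c
      by_cases hc : c = v
      · rw [hc]; exact h1.symm
      · exact h3 ⟨c, hc⟩ ⟨s, hs⟩ trivial trivial
    exact (h4 a).trans (h4 b).symm

/-- Lifting a Hamiltonian cycle of the contraction of the edge `u v` to a cycle of the graph
that misses at most one vertex; if it misses none, it uses the edge `u v`. -/
theorem exists_cycRel_contract {V : Type*} [Fintype V] [DecidableEq V] (G : SimpleGraph V)
    (u v : V) (huv : G.Adj u v) (hc : Fintype.card {x : V // x ≠ v} ≠ 1)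
    (hH : (SimpleGraph.fromRel (fun a b : {x : V // x ≠ v} =>
            G.Adj a.1 b.1 ∨ (a.1 = u ∧ G.Adj v b.1))).IsHamiltonian) :
    ∃ (R : V → V → Prop) (vis : V → Prop), CycRel R vis ∧ (∀ a b, R a b → G.Adj a b) ∧
      (∀ a b, a ≠ b → vis a ∨ vis b) ∧ ((∃ a, ¬ vis a) ∨ R u v) := by
  obtain ⟨R, hR, hadj⟩ := exists_cycRel _ hc hH
  have huv' : u ≠ v := huv.ne
  have hirr : ∀ a, ¬ R a a := fun a h => (hadj a a h).ne rfl
  -- adjacency facts
  have hA : ∀ a b, R a b → a.1 ≠ u → b.1 ≠ u → G.Adj a.1 b.1 := by
    intro a b h ha hb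
    have h1 := hadj a b h
    rw [SimpleGraph.fromRel_adj] at h1
    rcases h1.2 with (h2 | ⟨h2, _⟩) | (h2 | ⟨h2, _⟩)
    · exact h2
    · exact absurd h2 ha
    · exact h2.symm
    · exact absurd h2 hb
  have hB : ∀ b, R ⟨u, huv'⟩ b → b.1 ≠ u ∧ (G.Adj u b.1 ∨ G.Adj v b.1) := by
    intro b h
    have h1 := hadj _ b h
    rw [SimpleGraph.fromRel_adj] at h1
    have hbu : b.1 ≠ u := fun e => h1.1 (Subtype.ext e.symm)
    refine ⟨hbu, ?_⟩
    rcases h1.2 with (h2 | ⟨_, h2⟩) | (h2 | ⟨h2, _⟩)
    · exact Or.inl h2
    · exact Or.inr h2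
    · exact Or.inl h2.symm
    · exact absurd h2 hbu
  obtain ⟨b, c, hbc, hnb⟩ := hR.two ⟨u, huv'⟩ trivial
  have hRb : R ⟨u, huv'⟩ b := (hnb b).2 (Or.inl rfl)
  have hRc : R ⟨u, huv'⟩ c := (hnb c).2 (Or.inr rfl)
  have mixed : ∀ t w : {x : V // x ≠ v}, (∀ d, R ⟨u, huv'⟩ d ↔ d = t ∨ d = w) → t ≠ w →
      G.Adj u w.1 → G.Adj v t.1 →
      ∃ (R : V → V → Prop) (vis : V → Prop), CycRel R vis ∧ (∀ a b, R a b → G.Adj a b) ∧
      (∀ a b, a ≠ b → vis a ∨ vis b) ∧ ((∃ a, ¬ vis a) ∨ R u v) := by
    intro t w hn htw hw ht
    refine ⟨_, _, hR.subdivide hirr ⟨u, huv'⟩ t ((hn t).2 (Or.inl rfl)), ?_,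
      fun _ _ _ => Or.inl trivial, Or.inr (Or.inr (Or.inl rfl))⟩
    rintro a d (⟨h1, ha, hd, h2⟩ | h | h)
    · by_cases hau : a = u
      · subst hau
        rcases (hn _).1 h2 with e | e
        · exfalso
          apply h1
          have : d = t.1 := congrArg Subtype.val e
          rw [this]
        · have : d = w.1 := congrArg Subtype.val e
          rw [this]; exact hw
      · by_cases hdu : d = u
        · subst hdu
          rcases (hn _).1 (hR.symm _ _ h2) with e | e
          · exfalso
            apply h1
            have : a = t.1 := congrArg Subtype.val e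
            rw [this]; exact Sym2.eq_swap
          · have : a = w.1 := congrArg Subtype.val e
            rw [this]; exact hw.symm
        · exact hA _ _ h2 hau hdu
    · rw [Sym2.eq_iff] at h
      rcases h with ⟨rfl, rfl⟩ | ⟨rfl, rfl⟩
      · exact huv
      · exact huv.symm
    · rw [Sym2.eq_iff] at h
      rcases h with ⟨rfl, rfl⟩ | ⟨rfl, rfl⟩
      · exact ht
      · exact ht.symm
  by_cases hub : G.Adj u b.1
  · by_cases huc : G.Adj u c.1
    · -- the cycle misses `v`
      refine ⟨_, _, hR.map Subtype.val Subtype.val_injective, ?_, ?_, Or.inl ⟨v, ?_⟩⟩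
      · rintro _ _ ⟨a, d, h, rfl, rfl⟩
        by_cases hau : a.1 = u
        · have ha : a = ⟨u, huv'⟩ := Subtype.ext hau
          subst ha
          rcases (hnb _).1 h with rfl | rfl
          · exact hub
          · exact huc
        · by_cases hdu : d.1 = u
          · have hd : d = ⟨u, huv'⟩ := Subtype.ext hdu
            subst hd
            rcases (hnb _).1 (hR.symm _ _ h) with rfl | rfl
            · exact hub.symm
            · exact huc.symm
          · exact hA _ _ h hau hdu
      · intro a d had
        by_cases hav : a = v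
        · right
          exact ⟨⟨d, fun e => had (hav.trans e.symm)⟩, rfl⟩
        · left
          exact ⟨⟨a, hav⟩, rfl⟩
      · rintro ⟨a, ha⟩
        exact a.2 ha
    · have hvc : G.Adj v c.1 := ((hB c hRc).2).resolve_left huc
      exact mixed c b (fun d => by rw [hnb d]; exact or_comm) (Ne.symm hbc) hub hvc
  · have hvb : G.Adj v b.1 := ((hB b hRb).2).resolve_left hub
    by_cases huc : G.Adj u c.1
    · exact mixed b c hnb hbc huc hvb
    · have hvc : G.Adj v c.1 := ((hB c hRc).2).resolve_left huc
      -- the cycle misses `u`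
      let g : {x : V // x ≠ v} → V := fun w => if w.1 = u then v else w.1
      have hg : Function.Injective g := by
        intro w w' h
        by_cases h1 : w.1 = u
        · by_cases h2 : w'.1 = u
          · exact Subtype.ext (h1.trans h2.symm)
          · simp only [g, if_pos h1, if_neg h2] at h
            exact absurd h.symm w'.2
        · by_cases h2 : w'.1 = u
          · simp only [g, if_neg h1, if_pos h2] at h
            exact absurd h w.2
          · simp only [g, if_neg h1, if_neg h2] at h
            exact Subtype.ext h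
      refine ⟨_, _, hR.map g hg, ?_, ?_, Or.inl ⟨u, ?_⟩⟩
      · rintro _ _ ⟨a, d, h, rfl, rfl⟩
        by_cases hau : a.1 = u
        · have ha : a = ⟨u, huv'⟩ := Subtype.ext hau
          have hdu : d.1 ≠ u := by
            rw [ha] at h
            exact (hB d h).1
          have e1 : g a = v := by simp only [g, if_pos hau]
          have e2 : g d = d.1 := by simp only [g, if_neg hdu]
          rw [e1, e2]
          rw [ha] at h
          rcases (hnb _).1 h with rfl | rfl
          · exact hvb
          · exact hvc
        · by_cases hdu : d.1 = u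
          · have hd : d = ⟨u, huv'⟩ := Subtype.ext hdu
            have e1 : g a = a.1 := by simp only [g, if_neg hau]
            have e2 : g d = v := by simp only [g, if_pos hdu]
            rw [e1, e2]
            rw [hd] at h
            rcases (hnb _).1 (hR.symm _ _ h) with rfl | rfl
            · exact hvb.symm
            · exact hvc.symm
          · have e1 : g a = a.1 := by simp only [g, if_neg hau]
            have e2 : g d = d.1 := by simp only [g, if_neg hdu]
            rw [e1, e2]
            exact hA _ _ h hau hdu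
      · have hsurj : ∀ a, a ≠ u → ∃ w, g w = a := by
          intro a ha
          by_cases hav : a = v
          · exact ⟨⟨u, huv'⟩, by simp [g, hav]⟩
          · exact ⟨⟨a, hav⟩, by simp [g, ha]⟩
        intro a d had
        by_cases hau : a = u
        · right
          exact hsurj d (fun e => had (hau.trans e.symm))
        · left
          exact hsurj a hau
      · rintro ⟨w, hw⟩
        by_cases h1 : w.1 = u
        · simp only [g, if_pos h1] at hw
          exact huv' hw.symm
        · simp only [g, if_neg h1] at hw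
          exact h1 hw

end Pool.Agent.Lib.MP_321260_co
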