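import Pool.Agent.Lib.MP_321260_co.Checker

set_option autoImplicit false

/-! Data for the graph with 70 vertices, generated by a program and verified below. -/

namespace Pool.Agent.Lib.MP_321260_co

/-- The 111 edges; the edge `a b` with `a < b` is coded as `a * 128 + b`. -/
def E70 : List ℕ := [
  1, 2, 131, 260, 388, 261, 134, 646, 391, 647, 520, 777, 1033, 906, 1162, 907, 1036, 1420, 1293,
  1549, 1678, 15, 1807, 1424, 1808, 1169, 1938, 2194, 2067, 2323, 2196, 2069, 2581, 2326, 2583,
  2839, 2968, 2457, 3098, 3226, 3227, 3100, 3484, 2845, 3613, 3742, 3487, 3871, 3360, 4000, 2721,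
  3873, 3618, 4258, 4387, 4260, 4516, 4133, 4774, 4647, 4903, 5032, 4521, 5161, 4906, 5290, 4779,
  5420, 5548, 5293, 5549, 5806, 5167, 5935, 4656, 5937, 6193, 5682, 6067, 6451, 6324, 6580, 6197,
  6453, 6582, 6839, 6967, 7096, 7225, 6842, 7354, 7227, 6716, 7612, 7357, 7741, 7486, 7614, 7743,
  8000, 8128, 7873, 8002, 8386, 8259, 8387, 8132, 8516, 6981, 8645, 8773]

/-- The 70 edges of the designated Hamiltonian cycle. -/
def C70 : List ℕ := [
  1, 2, 131, 388, 261, 646, 520, 777, 906, 907, 1036, 1420, 1293, 1678, 1807, 1169, 1938, 2067,
  2196, 2069, 2581, 2326, 2839, 2968, 2457, 3098, 3227, 3613, 3742, 3487, 3871, 3360, 3618, 4258,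
  4260, 4516, 4133, 4903, 5032, 4521, 5161, 4906, 4779, 5420, 5549, 5806, 5935, 6193, 5682, 6067,
  6324, 6197, 6453, 6582, 6967, 7096, 7354, 7227, 6716, 7357, 7486, 7614, 7743, 8128, 7873, 8386,
  8259, 8516, 8645, 8773]

/-- The vertices in the order of the designated Hamiltonian cycle. -/
def cyc70 : List ℕ := [
  0, 1, 3, 4, 8, 12, 11, 7, 10, 13, 14, 15, 18, 22, 23, 24, 26, 32, 37, 43, 45, 46, 47, 51, 54,
  55, 56, 59, 62, 58, 57, 61, 65, 66, 68, 69, 67, 64, 63, 60, 52, 49, 48, 53, 50, 44, 42, 38, 39,
  40, 41, 35, 36, 33, 34, 28, 29, 30, 31, 27, 25, 19, 16, 21, 20, 17, 9, 6, 5, 2]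

/-- Successors on the designated cycle. -/
def nxt70 : List ℕ := [
  1, 3, 0, 4, 8, 2, 5, 10, 12, 6, 13, 7, 11, 14, 15, 18, 21, 9, 22, 16, 17, 20, 23, 24, 26, 19,
  32, 25, 29, 30, 31, 27, 37, 34, 28, 36, 33, 43, 39, 40, 41, 35, 38, 45, 42, 46, 47, 51, 53, 48,
  44, 54, 49, 50, 55, 56, 59, 61, 57, 62, 52, 65, 58, 60, 63, 66, 68, 64, 69, 67]

/-- Predecessors on the designated cycle. -/
def prv70 : List ℕ := [
  2, 0, 5, 1, 3, 6, 9, 11, 4, 17, 7, 12, 8, 10, 13, 14, 19, 20, 15, 25, 21, 16, 18, 22, 23, 27,
  24, 31, 34, 28, 29, 30, 26, 36, 33, 41, 35, 32, 42, 38, 39, 40, 44, 37, 50, 43, 45, 46, 49, 52,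
  53, 47, 60, 48, 51, 54, 55, 58, 62, 56, 63, 57, 59, 64, 67, 61, 65, 69, 66, 68]

/-- A third neighbour of each vertex. -/
def thd70 : List ℕ := [
  15, 6, 4, 7, 2, 7, 1, 3, 9, 8, 9, 16, 13, 12, 16, 0, 11, 18, 17, 18, 23, 33, 29, 20, 28, 26,
  25, 28, 24, 22, 33, 32, 31, 21, 35, 34, 39, 38, 37, 36, 47, 42, 41, 44, 43, 41, 49, 40, 36, 46,
  51, 50, 51, 55, 69, 53, 57, 56, 53, 60, 59, 60, 64, 68, 62, 67, 62, 65, 63, 54]

/-- Level 0. -/
def lv0 : Lvl := ([1, 2, 15], [1, 2, 15], [
  ([], true, true), ([(1, 2)], false, false), ([(1, 15)], false, true), ([(2, 15)], false, true)])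

/-- Level 1. -/
def lv1 : Lvl := ([1, 131, 134], [2, 131, 134, 15], [
  ([(2, 15)], true, true), ([(2, 15), (131, 134)], false, true), ([(2, 131)], false, false),
  ([(2, 134)], false, true), ([(15, 131)], false, true), ([(15, 134)], false, true),
  ([(131, 134)], true, true)])

/-- Level 2. -/
def lv2 : Lvl := ([2, 260, 261], [131, 260, 261, 134, 15], [
  ([(15, 131)], true, true), ([(15, 131), (260, 261)], false, true), ([(15, 134)], true, true),
  ([(15, 134), (260, 261)], false, true), ([(15, 260)], true, true),
  ([(15, 260), (131, 134)], false, true), ([(15, 261)], true, true),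
  ([(15, 261), (131, 134)], false, true), ([(131, 134), (260, 261)], true, true),
  ([(131, 260)], false, true), ([(131, 261)], false, false), ([(134, 260)], false, true),
  ([(134, 261)], false, true)])

/-- Level 3. -/
def lv3 : Lvl := ([131, 388, 391], [260, 388, 261, 134, 391, 15], [
  ([(15, 134), (260, 261)], true, true), ([(15, 134), (260, 261), (388, 391)], false, true),
  ([(15, 134), (388, 391)], true, true), ([(15, 260), (134, 388)], false, true),
  ([(15, 260), (134, 391)], false, true), ([(15, 260), (388, 391)], true, true),
  ([(15, 261), (134, 388)], false, true), ([(15, 261), (134, 391)], false, true),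
  ([(15, 261), (388, 391)], true, true), ([(15, 388)], true, true),
  ([(15, 388), (260, 261)], false, true), ([(15, 391)], true, true),
  ([(15, 391), (260, 261)], false, true), ([(134, 260)], true, true),
  ([(134, 260), (388, 391)], false, true), ([(134, 261)], true, true),
  ([(134, 261), (388, 391)], false, true), ([(134, 388), (260, 261)], true, true),
  ([(134, 391), (260, 261)], true, true), ([(260, 388)], false, true),
  ([(260, 391)], false, true), ([(261, 388)], false, false), ([(261, 391)], false, true)])

/-- Level 4. -/
def lv4 : Lvl := ([260, 388, 520], [261, 134, 391, 520, 15], [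
  ([(15, 134)], false, true), ([(15, 134), (261, 391)], false, true),
  ([(15, 134), (261, 520)], true, true), ([(15, 134), (391, 520)], true, true),
  ([(15, 261)], false, true), ([(15, 261), (134, 391)], true, true),
  ([(15, 261), (134, 520)], false, true), ([(15, 261), (391, 520)], true, true),
  ([(15, 391)], true, true), ([(15, 391), (261, 520)], false, true), ([(15, 520)], true, true),
  ([(15, 520), (134, 391)], false, true), ([(134, 261)], true, true),
  ([(134, 261), (391, 520)], false, true), ([(134, 391)], false, true),
  ([(134, 391), (261, 520)], true, true), ([(134, 520)], true, true), ([(261, 391)], true, true),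
  ([(261, 520)], false, false), ([(391, 520)], false, true)])

/-- Level 5. -/
def lv5 : Lvl := ([261, 646, 647], [134, 646, 391, 647, 520, 15], [
  ([(15, 134)], true, true), ([(15, 134), (391, 520), (646, 647)], true, true),
  ([(15, 134), (391, 646)], false, true), ([(15, 134), (391, 647)], false, true),
  ([(15, 134), (520, 646)], true, true), ([(15, 134), (520, 647)], true, true),
  ([(15, 134), (646, 647)], false, true), ([(15, 391), (520, 646)], false, true),
  ([(15, 391), (520, 647)], false, true), ([(15, 391), (646, 647)], true, true),
  ([(15, 520), (134, 391)], true, true), ([(15, 520), (134, 391), (646, 647)], false, true),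
  ([(15, 520), (646, 647)], true, true), ([(15, 646)], false, true),
  ([(15, 646), (134, 391)], true, true), ([(15, 646), (134, 520)], false, true),
  ([(15, 646), (391, 520)], true, true), ([(15, 647)], false, true),
  ([(15, 647), (134, 391)], true, true), ([(15, 647), (134, 520)], false, true),
  ([(15, 647), (391, 520)], true, true), ([(134, 391)], true, true),
  ([(134, 391), (520, 646)], true, true), ([(134, 391), (520, 647)], true, true),
  ([(134, 391), (646, 647)], false, true), ([(134, 520), (646, 647)], true, true),
  ([(134, 646)], true, true), ([(134, 646), (391, 520)], false, true),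
  ([(134, 647)], true, true), ([(134, 647), (391, 520)], false, true),
  ([(391, 520)], true, true), ([(391, 520), (646, 647)], false, true),
  ([(391, 646)], true, true), ([(391, 647)], true, true), ([(520, 646)], false, false),
  ([(520, 647)], false, true)])

/-- Level 6. -/
def lv6 : Lvl := ([134, 646, 777], [391, 647, 520, 777, 15], [
  ([(15, 391)], false, true), ([(15, 391)], true, true), ([(15, 391), (520, 647)], true, true),
  ([(15, 391), (520, 777)], false, true), ([(15, 391), (647, 777)], true, true),
  ([(15, 520)], false, true), ([(15, 520)], true, true), ([(15, 520), (391, 647)], false, true),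
  ([(15, 520), (391, 777)], true, true), ([(15, 520), (647, 777)], true, true),
  ([(15, 647)], false, true), ([(15, 647)], true, true), ([(15, 647), (391, 520)], true, true),
  ([(15, 647), (391, 777)], true, true), ([(15, 647), (520, 777)], false, true),
  ([(15, 777)], false, true), ([(15, 777)], true, true), ([(15, 777), (391, 520)], true, true),
  ([(15, 777), (391, 647)], false, true), ([(15, 777), (520, 647)], true, true),
  ([(391, 520)], true, true), ([(391, 520), (647, 777)], false, true),
  ([(391, 647)], false, true), ([(391, 777)], true, true),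
  ([(391, 777), (520, 647)], true, true), ([(520, 647)], true, true),
  ([(520, 777)], false, false), ([(647, 777)], true, true)])

/-- Level 7. -/
def lv7 : Lvl := ([391, 647, 906, 907], [520, 777, 906, 907, 15], [
  ([(15, 520)], true, true), ([(15, 520), (777, 906)], true, true),
  ([(15, 520), (777, 907)], true, true), ([(15, 520), (906, 907)], false, true),
  ([(15, 520), (906, 907)], true, true), ([(15, 777)], true, true),
  ([(15, 777), (520, 906)], true, true), ([(15, 777), (520, 907)], true, true),
  ([(15, 777), (906, 907)], false, true), ([(15, 777), (906, 907)], true, true),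
  ([(15, 906)], false, true), ([(15, 906)], true, true), ([(15, 906), (520, 777)], false, true),
  ([(15, 907)], false, true), ([(15, 907)], true, true), ([(15, 907), (520, 777)], false, true),
  ([(520, 777)], false, true), ([(520, 777)], true, true),
  ([(520, 777), (906, 907)], false, false), ([(520, 906)], true, true),
  ([(520, 907)], true, true), ([(777, 906)], true, true), ([(777, 907)], true, true)])

/-- Level 8. -/
def lv8 : Lvl := ([520, 1033, 1036], [777, 1033, 906, 907, 1036, 15], [
  ([(15, 777), (906, 907)], true, true), ([(15, 777), (906, 907), (1033, 1036)], false, true),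
  ([(15, 777), (906, 907), (1033, 1036)], true, true), ([(15, 777), (906, 1033)], true, true),
  ([(15, 777), (906, 1036)], true, true), ([(15, 777), (907, 1033)], true, true),
  ([(15, 777), (907, 1036)], true, true), ([(15, 777), (1033, 1036)], true, true),
  ([(15, 906)], true, true), ([(15, 906), (777, 1033)], false, true),
  ([(15, 906), (777, 1036)], false, true), ([(15, 906), (1033, 1036)], false, true),
  ([(15, 906), (1033, 1036)], true, true), ([(15, 907)], true, true),
  ([(15, 907), (777, 1033)], false, true), ([(15, 907), (777, 1036)], false, true),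
  ([(15, 907), (1033, 1036)], false, true), ([(15, 907), (1033, 1036)], true, true),
  ([(15, 1033)], true, true), ([(15, 1033), (777, 906)], true, true),
  ([(15, 1033), (777, 907)], true, true), ([(15, 1033), (906, 907)], false, true),
  ([(15, 1033), (906, 907)], true, true), ([(15, 1036)], true, true),
  ([(15, 1036), (777, 906)], true, true), ([(15, 1036), (777, 907)], true, true),
  ([(15, 1036), (906, 907)], false, true), ([(15, 1036), (906, 907)], true, true),
  ([(777, 906), (1033, 1036)], true, true), ([(777, 907), (1033, 1036)], true, true),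
  ([(777, 1033)], false, true), ([(777, 1033)], true, true),
  ([(777, 1033), (906, 907)], false, true), ([(777, 1036)], false, true),
  ([(777, 1036)], true, true), ([(777, 1036), (906, 907)], false, false),
  ([(906, 1033)], true, true), ([(906, 1036)], true, true), ([(907, 1033)], true, true),
  ([(907, 1036)], true, true)])

/-- Level 9. -/
def lv9 : Lvl := ([777, 1033, 1162, 1169], [906, 1162, 907, 1036, 15, 1169], [
  ([(15, 906)], true, true), ([(15, 906), (1036, 1162)], false, true),
  ([(15, 906), (1036, 1162)], true, true), ([(15, 906), (1036, 1169)], false, true),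
  ([(15, 906), (1036, 1169)], true, true), ([(15, 906), (1162, 1169)], true, true),
  ([(15, 907)], true, true), ([(15, 907), (1036, 1162)], false, true),
  ([(15, 907), (1036, 1162)], true, true), ([(15, 907), (1036, 1169)], false, true),
  ([(15, 907), (1036, 1169)], true, true), ([(15, 907), (1162, 1169)], true, true),
  ([(15, 1036)], true, true), ([(15, 1036), (906, 907)], false, true),
  ([(15, 1036), (906, 907)], true, true), ([(15, 1036), (906, 907), (1162, 1169)], false, true),
  ([(15, 1036), (906, 907), (1162, 1169)], true, true), ([(15, 1036), (906, 1162)], true, true),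
  ([(15, 1036), (906, 1169)], true, true), ([(15, 1036), (907, 1162)], true, true),
  ([(15, 1036), (907, 1169)], true, true), ([(15, 1036), (1162, 1169)], true, true),
  ([(15, 1162)], true, true), ([(15, 1162), (906, 907)], false, true),
  ([(15, 1162), (906, 907)], true, true), ([(15, 1162), (906, 1036)], true, true),
  ([(15, 1162), (907, 1036)], true, true), ([(15, 1169)], true, true),
  ([(15, 1169), (906, 907)], false, true), ([(15, 1169), (906, 907)], true, true),
  ([(15, 1169), (906, 1036)], true, true), ([(15, 1169), (907, 1036)], true, true),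
  ([(906, 907), (1036, 1162)], false, true), ([(906, 907), (1036, 1169)], false, false),
  ([(906, 1036)], true, true), ([(906, 1036), (1162, 1169)], true, true),
  ([(906, 1162)], true, true), ([(906, 1169)], true, true), ([(907, 1036)], true, true),
  ([(907, 1036), (1162, 1169)], true, true), ([(907, 1162)], true, true),
  ([(907, 1169)], true, true), ([(1036, 1162)], false, true), ([(1036, 1162)], true, true),
  ([(1036, 1169)], false, true), ([(1036, 1169)], true, true)])

/-- Level 10. -/
def lv10 : Lvl := ([906, 1162, 1293], [907, 1036, 1293, 15, 1169], [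
  ([(15, 907)], false, true), ([(15, 907)], true, true), ([(15, 907), (1036, 1169)], true, true),
  ([(15, 907), (1036, 1293)], false, true), ([(15, 907), (1036, 1293)], true, true),
  ([(15, 907), (1169, 1293)], true, true), ([(15, 1036)], false, true),
  ([(15, 1036)], true, true), ([(15, 1036), (907, 1169)], false, true),
  ([(15, 1036), (907, 1169)], true, true), ([(15, 1036), (907, 1293)], false, true),
  ([(15, 1036), (907, 1293)], true, true), ([(15, 1036), (1169, 1293)], true, true),
  ([(15, 1169)], true, true), ([(15, 1169), (907, 1293)], false, true),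
  ([(15, 1169), (907, 1293)], true, true), ([(15, 1169), (1036, 1293)], true, true),
  ([(15, 1293)], true, true), ([(15, 1293), (907, 1036)], true, true),
  ([(15, 1293), (1036, 1169)], false, true), ([(15, 1293), (1036, 1169)], true, true),
  ([(907, 1036)], false, true), ([(907, 1036), (1169, 1293)], true, true),
  ([(907, 1293)], true, true), ([(907, 1293), (1036, 1169)], false, false),
  ([(1036, 1169)], true, true), ([(1036, 1293)], false, true), ([(1036, 1293)], true, true),
  ([(1169, 1293)], true, true)])

/-- Level 11. -/
def lv11 : Lvl := ([907, 1420, 1424], [1036, 1420, 1293, 15, 1424, 1169], [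
  ([(15, 1036)], true, true), ([(15, 1036), (1169, 1293), (1420, 1424)], true, true),
  ([(15, 1036), (1169, 1420)], false, true), ([(15, 1036), (1169, 1420)], true, true),
  ([(15, 1036), (1169, 1424)], false, true), ([(15, 1036), (1169, 1424)], true, true),
  ([(15, 1036), (1293, 1420)], false, true), ([(15, 1036), (1293, 1420)], true, true),
  ([(15, 1036), (1293, 1424)], false, true), ([(15, 1036), (1293, 1424)], true, true),
  ([(15, 1036), (1420, 1424)], false, true), ([(15, 1036), (1420, 1424)], true, true),
  ([(15, 1169), (1036, 1293), (1420, 1424)], true, true),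
  ([(15, 1169), (1293, 1420)], false, true), ([(15, 1169), (1293, 1420)], true, true),
  ([(15, 1169), (1293, 1424)], false, true), ([(15, 1169), (1293, 1424)], true, true),
  ([(15, 1169), (1420, 1424)], true, true), ([(15, 1293), (1036, 1169)], true, true),
  ([(15, 1293), (1036, 1169), (1420, 1424)], false, true),
  ([(15, 1293), (1036, 1169), (1420, 1424)], true, true),
  ([(15, 1293), (1036, 1420)], true, true), ([(15, 1293), (1036, 1424)], true, true),
  ([(15, 1293), (1420, 1424)], true, true), ([(15, 1420)], false, true),
  ([(15, 1420)], true, true), ([(15, 1420), (1036, 1169)], true, true),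
  ([(15, 1420), (1036, 1293)], false, true), ([(15, 1420), (1036, 1293)], true, true),
  ([(15, 1420), (1169, 1293)], true, true), ([(15, 1424)], false, true),
  ([(15, 1424)], true, true), ([(15, 1424), (1036, 1169)], true, true),
  ([(15, 1424), (1036, 1293)], false, true), ([(15, 1424), (1036, 1293)], true, true),
  ([(15, 1424), (1169, 1293)], true, true), ([(1036, 1169), (1293, 1420)], false, false),
  ([(1036, 1169), (1293, 1424)], false, true), ([(1036, 1169), (1420, 1424)], true, true),
  ([(1036, 1293)], true, true), ([(1036, 1293), (1420, 1424)], false, true),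
  ([(1036, 1293), (1420, 1424)], true, true), ([(1036, 1420)], false, true),
  ([(1036, 1420), (1169, 1293)], true, true), ([(1036, 1424)], false, true),
  ([(1036, 1424), (1169, 1293)], true, true), ([(1169, 1293), (1420, 1424)], true, true),
  ([(1293, 1420)], true, true), ([(1293, 1424)], true, true)])

/-- Level 12. -/
def lv12 : Lvl := ([1036, 1420, 1549], [1293, 1549, 15, 1424, 1169], [
  ([(15, 1169)], false, true), ([(15, 1169)], true, true),
  ([(15, 1169), (1293, 1424)], true, true), ([(15, 1169), (1293, 1549)], false, true),
  ([(15, 1169), (1293, 1549)], true, true), ([(15, 1169), (1424, 1549)], true, true),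
  ([(15, 1293)], false, true), ([(15, 1293)], true, true),
  ([(15, 1293), (1169, 1424)], false, true), ([(15, 1293), (1169, 1424)], true, true),
  ([(15, 1293), (1169, 1549)], true, true), ([(15, 1293), (1424, 1549)], true, true),
  ([(15, 1424)], false, true), ([(15, 1424)], true, true),
  ([(15, 1424), (1169, 1293)], true, true), ([(15, 1424), (1169, 1549)], true, true),
  ([(15, 1424), (1293, 1549)], false, true), ([(15, 1424), (1293, 1549)], true, true),
  ([(15, 1549)], false, true), ([(15, 1549)], true, true),
  ([(15, 1549), (1169, 1293)], true, true), ([(15, 1549), (1169, 1424)], false, true),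
  ([(15, 1549), (1169, 1424)], true, true), ([(15, 1549), (1293, 1424)], false, true),
  ([(15, 1549), (1293, 1424)], true, true), ([(1169, 1293)], false, false),
  ([(1169, 1293), (1424, 1549)], true, true), ([(1169, 1424)], true, true),
  ([(1169, 1549), (1293, 1424)], false, true), ([(1293, 1424)], false, true),
  ([(1293, 1424)], true, true), ([(1293, 1549)], true, true), ([(1424, 1549)], false, true)])

/-- Level 13. -/
def lv13 : Lvl := ([1293, 1549, 1678], [1678, 15, 1424, 1169], [
  ([(15, 1169)], true, true), ([(15, 1169), (1424, 1678)], true, true),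
  ([(15, 1424)], false, true), ([(15, 1424)], true, true),
  ([(15, 1424), (1169, 1678)], true, true), ([(15, 1678)], false, true),
  ([(15, 1678)], true, true), ([(15, 1678), (1169, 1424)], false, true),
  ([(15, 1678), (1169, 1424)], true, true), ([(1169, 1424)], false, true),
  ([(1169, 1424)], true, true), ([(1169, 1678)], false, false), ([(1424, 1678)], false, true),
  ([(1424, 1678)], true, true)])

/-- Level 14. -/
def lv14 : Lvl := ([1678, 1807, 1808], [15, 1807, 1424, 1808, 1169], [
  ([(15, 1169), (1424, 1807)], true, true), ([(15, 1169), (1424, 1808)], true, true),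
  ([(15, 1169), (1807, 1808)], true, true), ([(15, 1424)], true, true),
  ([(15, 1424), (1169, 1807)], true, true), ([(15, 1424), (1169, 1808)], true, true),
  ([(15, 1424), (1807, 1808)], false, true), ([(15, 1424), (1807, 1808)], true, true),
  ([(15, 1807)], false, true), ([(15, 1807)], true, true),
  ([(15, 1807), (1169, 1424)], false, true), ([(15, 1807), (1169, 1424)], true, true),
  ([(15, 1808)], false, true), ([(15, 1808)], true, true),
  ([(15, 1808), (1169, 1424)], false, true), ([(15, 1808), (1169, 1424)], true, true),
  ([(1169, 1424)], true, true), ([(1169, 1424), (1807, 1808)], false, true),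
  ([(1169, 1424), (1807, 1808)], true, true), ([(1169, 1807)], false, false),
  ([(1169, 1808)], false, true), ([(1424, 1807)], false, true), ([(1424, 1807)], true, true),
  ([(1424, 1808)], false, true), ([(1424, 1808)], true, true)])

/-- Level 15. -/
def lv15 : Lvl := ([15, 1807, 1938], [1424, 1808, 1169, 1938], [
  ([(1169, 1424)], true, true), ([(1169, 1424), (1808, 1938)], false, true),
  ([(1169, 1424), (1808, 1938)], true, true), ([(1169, 1808)], true, true),
  ([(1169, 1808), (1424, 1938)], true, true), ([(1169, 1938)], false, false),
  ([(1169, 1938), (1424, 1808)], true, true), ([(1424, 1808)], false, true),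
  ([(1424, 1808)], true, true), ([(1424, 1938)], false, true), ([(1424, 1938)], true, true),
  ([(1808, 1938)], false, true), ([(1808, 1938)], true, true)])

/-- Level 16. -/
def lv16 : Lvl := ([1424, 1808, 2067, 2069], [1169, 1938, 2067, 2069], [
  ([(1169, 1938)], false, true), ([(1169, 1938)], true, true),
  ([(1169, 1938), (2067, 2069)], false, false), ([(1169, 2067)], true, true),
  ([(1169, 2069)], true, true), ([(1938, 2067)], false, true), ([(1938, 2067)], true, true),
  ([(1938, 2069)], false, true), ([(1938, 2069)], true, true)])

/-- Level 17. -/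
def lv17 : Lvl := ([1169, 2194, 2196], [1938, 2194, 2067, 2196, 2069], [
  ([(1938, 2067)], true, true), ([(1938, 2067), (2194, 2196)], false, true),
  ([(1938, 2067), (2194, 2196)], true, true), ([(1938, 2069)], true, true),
  ([(1938, 2069), (2194, 2196)], false, true), ([(1938, 2069), (2194, 2196)], true, true),
  ([(1938, 2194)], false, true), ([(1938, 2194)], true, true),
  ([(1938, 2194), (2067, 2069)], false, true), ([(1938, 2196)], false, true),
  ([(1938, 2196)], true, true), ([(1938, 2196), (2067, 2069)], false, false),
  ([(2067, 2194)], true, true), ([(2067, 2196)], true, true), ([(2069, 2194)], true, true),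
  ([(2069, 2196)], true, true)])

/-- Level 18. -/
def lv18 : Lvl := ([1938, 2194, 2323, 2326], [2067, 2323, 2196, 2069, 2326], [
  ([(2067, 2069), (2196, 2323)], false, true), ([(2067, 2069), (2196, 2326)], false, false),
  ([(2067, 2196)], false, true), ([(2067, 2196)], true, true),
  ([(2067, 2196), (2323, 2326)], true, true), ([(2067, 2323)], true, true),
  ([(2067, 2326)], true, true), ([(2069, 2196)], false, true), ([(2069, 2196)], true, true),
  ([(2069, 2196), (2323, 2326)], true, true), ([(2069, 2323)], true, true),
  ([(2069, 2326)], true, true), ([(2196, 2323)], false, true), ([(2196, 2323)], true, true),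
  ([(2196, 2326)], false, true), ([(2196, 2326)], true, true)])

/-- Level 19. -/
def lv19 : Lvl := ([2067, 2323, 2457], [2196, 2069, 2326, 2457], [
  ([(2069, 2196)], false, true), ([(2069, 2196)], true, true),
  ([(2069, 2196), (2326, 2457)], true, true), ([(2069, 2457)], true, true),
  ([(2069, 2457), (2196, 2326)], false, false), ([(2196, 2326)], true, true),
  ([(2196, 2457)], false, true), ([(2196, 2457)], true, true), ([(2326, 2457)], true, true)])

/-- Level 20. -/
def lv20 : Lvl := ([2196, 2581, 2583], [2069, 2581, 2326, 2583, 2457], [
  ([(2069, 2457), (2326, 2581)], false, false), ([(2069, 2457), (2326, 2583)], false, true),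
  ([(2069, 2457), (2581, 2583)], true, true), ([(2069, 2581)], false, true),
  ([(2069, 2581)], true, true), ([(2069, 2581), (2326, 2457)], true, true),
  ([(2069, 2583)], false, true), ([(2069, 2583)], true, true),
  ([(2069, 2583), (2326, 2457)], true, true), ([(2326, 2457), (2581, 2583)], true, true),
  ([(2326, 2581)], true, true), ([(2326, 2583)], true, true), ([(2457, 2581)], false, true),
  ([(2457, 2581)], true, true), ([(2457, 2583)], false, true), ([(2457, 2583)], true, true)])

/-- Level 21. -/
def lv21 : Lvl := ([2069, 2581, 2721], [2326, 2583, 2457, 2721], [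
  ([(2326, 2457)], false, false), ([(2326, 2457), (2583, 2721)], true, true),
  ([(2326, 2583), (2457, 2721)], false, true), ([(2326, 2721)], true, true),
  ([(2457, 2583)], true, true), ([(2457, 2721)], false, true), ([(2457, 2721)], true, true),
  ([(2583, 2721)], false, true), ([(2583, 2721)], true, true)])

/-- Level 22. -/
def lv22 : Lvl := ([2326, 2839, 2845], [2583, 2839, 2457, 2845, 2721], [
  ([(2457, 2583), (2839, 2845)], true, true), ([(2457, 2721)], true, true),
  ([(2457, 2721), (2583, 2839)], false, true), ([(2457, 2721), (2583, 2845)], false, true),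
  ([(2457, 2721), (2839, 2845)], false, true), ([(2457, 2721), (2839, 2845)], true, true),
  ([(2457, 2839)], false, false), ([(2457, 2839), (2583, 2721)], true, true),
  ([(2457, 2845)], false, true), ([(2457, 2845), (2583, 2721)], true, true),
  ([(2583, 2721)], true, true), ([(2583, 2721), (2839, 2845)], false, true),
  ([(2583, 2721), (2839, 2845)], true, true), ([(2721, 2839)], true, true),
  ([(2721, 2845)], true, true)])

/-- Level 23. -/
def lv23 : Lvl := ([2583, 2839, 2968], [2968, 2457, 2845, 2721], [
  ([(2457, 2721)], true, true), ([(2457, 2721), (2845, 2968)], false, true),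
  ([(2457, 2721), (2845, 2968)], true, true), ([(2457, 2845)], true, true),
  ([(2457, 2845), (2721, 2968)], true, true), ([(2457, 2968)], false, false),
  ([(2721, 2845)], false, true), ([(2721, 2845)], true, true), ([(2721, 2968)], true, true)])

/-- Level 24. -/
def lv24 : Lvl := ([2968, 3098, 3100], [2457, 3098, 3100, 2845, 2721], [
  ([(2457, 2721), (2845, 3098)], false, true), ([(2457, 2721), (2845, 3098)], true, true),
  ([(2457, 2721), (2845, 3100)], false, true), ([(2457, 2721), (2845, 3100)], true, true),
  ([(2457, 2721), (3098, 3100)], true, true), ([(2457, 2845), (2721, 3098)], true, true),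
  ([(2457, 2845), (2721, 3100)], true, true), ([(2457, 2845), (3098, 3100)], true, true),
  ([(2457, 3098)], false, false), ([(2457, 3100)], false, true), ([(2721, 2845)], true, true),
  ([(2721, 2845), (3098, 3100)], false, true), ([(2721, 2845), (3098, 3100)], true, true),
  ([(2721, 3098)], true, true), ([(2721, 3100)], true, true)])

/-- Level 25. -/
def lv25 : Lvl := ([2457, 3226, 3227], [3098, 3226, 3227, 3100, 2845, 2721], [
  ([(2721, 2845), (3098, 3100)], true, true),
  ([(2721, 2845), (3098, 3100), (3226, 3227)], false, true),
  ([(2721, 2845), (3098, 3100), (3226, 3227)], true, true),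
  ([(2721, 2845), (3226, 3227)], true, true), ([(2721, 3098), (2845, 3226)], true, true),
  ([(2721, 3098), (2845, 3227)], true, true), ([(2721, 3098), (3226, 3227)], true, true),
  ([(2721, 3100), (2845, 3226)], true, true), ([(2721, 3100), (2845, 3227)], true, true),
  ([(2721, 3100), (3226, 3227)], true, true), ([(2721, 3226), (2845, 3098)], false, true),
  ([(2721, 3226), (2845, 3098)], true, true), ([(2721, 3226), (2845, 3100)], false, true),
  ([(2721, 3226), (2845, 3100)], true, true), ([(2721, 3226), (3098, 3100)], true, true),
  ([(2721, 3227), (2845, 3098)], false, true), ([(2721, 3227), (2845, 3098)], true, true),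
  ([(2721, 3227), (2845, 3100)], false, true), ([(2721, 3227), (2845, 3100)], true, true),
  ([(2721, 3227), (3098, 3100)], true, true), ([(2845, 3226), (3098, 3100)], true, true),
  ([(2845, 3227), (3098, 3100)], true, true), ([(3098, 3226)], false, true),
  ([(3098, 3227)], false, false), ([(3100, 3226)], false, true), ([(3100, 3227)], false, true)])

/-- Level 26. -/
def lv26 : Lvl := ([3098, 3226, 3360], [3227, 3100, 2845, 3360, 2721], [
  ([(2721, 2845)], false, true), ([(2721, 2845)], true, true),
  ([(2721, 2845), (3100, 3227)], false, true), ([(2721, 2845), (3100, 3227)], true, true),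
  ([(2721, 2845), (3100, 3360)], true, true), ([(2721, 2845), (3227, 3360)], true, true),
  ([(2721, 3100)], true, true), ([(2721, 3100), (2845, 3360)], true, true),
  ([(2721, 3100), (3227, 3360)], true, true), ([(2721, 3227)], true, true),
  ([(2721, 3227), (2845, 3100)], true, true), ([(2721, 3227), (2845, 3360)], false, true),
  ([(2721, 3227), (2845, 3360)], true, true), ([(2721, 3227), (3100, 3360)], true, true),
  ([(2721, 3360), (2845, 3100)], false, true), ([(2721, 3360), (2845, 3100)], true, true),
  ([(2721, 3360), (2845, 3227)], true, true), ([(2845, 3100)], true, true),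
  ([(2845, 3227), (3100, 3360)], true, true), ([(3100, 3227)], true, true),
  ([(3100, 3360)], false, true), ([(3227, 3360)], false, false)])

/-- Level 27. -/
def lv27 : Lvl := ([3227, 3484, 3487], [3100, 3484, 2845, 3487, 3360, 2721], [
  ([(2721, 2845)], true, true), ([(2721, 2845), (3100, 3360), (3484, 3487)], true, true),
  ([(2721, 2845), (3100, 3484)], false, true), ([(2721, 2845), (3100, 3484)], true, true),
  ([(2721, 2845), (3100, 3487)], false, true), ([(2721, 2845), (3100, 3487)], true, true),
  ([(2721, 2845), (3360, 3484)], true, true), ([(2721, 2845), (3360, 3487)], true, true),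
  ([(2721, 2845), (3484, 3487)], false, true), ([(2721, 2845), (3484, 3487)], true, true),
  ([(2721, 3100), (2845, 3360), (3484, 3487)], true, true),
  ([(2721, 3100), (3360, 3484)], true, true), ([(2721, 3100), (3360, 3487)], true, true),
  ([(2721, 3100), (3484, 3487)], true, true), ([(2721, 3360), (2845, 3100)], true, true),
  ([(2721, 3360), (2845, 3100), (3484, 3487)], false, true),
  ([(2721, 3360), (2845, 3100), (3484, 3487)], true, true),
  ([(2721, 3360), (2845, 3484)], true, true), ([(2721, 3360), (2845, 3487)], true, true),
  ([(2721, 3484)], true, true), ([(2721, 3484), (2845, 3100)], true, true),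
  ([(2721, 3484), (2845, 3360)], false, true), ([(2721, 3484), (2845, 3360)], true, true),
  ([(2721, 3484), (3100, 3360)], true, true), ([(2721, 3487)], true, true),
  ([(2721, 3487), (2845, 3100)], true, true), ([(2721, 3487), (2845, 3360)], false, true),
  ([(2721, 3487), (2845, 3360)], true, true), ([(2721, 3487), (3100, 3360)], true, true),
  ([(2845, 3100), (3484, 3487)], true, true), ([(2845, 3484), (3100, 3360)], true, true),
  ([(2845, 3487), (3100, 3360)], true, true), ([(3100, 3360)], true, true),
  ([(3100, 3360), (3484, 3487)], false, true), ([(3100, 3484)], true, true),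
  ([(3100, 3487)], true, true), ([(3360, 3484)], false, true), ([(3360, 3487)], false, false)])

/-- Level 28. -/
def lv28 : Lvl := ([3100, 3484, 3613, 3618], [2845, 3613, 3487, 3360, 2721, 3618], [
  ([(2721, 2845)], true, true), ([(2721, 2845), (3360, 3487)], true, true),
  ([(2721, 2845), (3360, 3487), (3613, 3618)], true, true),
  ([(2721, 2845), (3360, 3613)], true, true), ([(2721, 2845), (3360, 3618)], true, true),
  ([(2721, 2845), (3487, 3613)], false, true), ([(2721, 2845), (3487, 3613)], true, true),
  ([(2721, 2845), (3487, 3618)], false, true), ([(2721, 2845), (3487, 3618)], true, true),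
  ([(2721, 2845), (3613, 3618)], true, true), ([(2721, 3360)], true, true),
  ([(2721, 3360), (2845, 3487)], false, true), ([(2721, 3360), (2845, 3487)], true, true),
  ([(2721, 3360), (2845, 3487), (3613, 3618)], true, true),
  ([(2721, 3360), (2845, 3613)], true, true), ([(2721, 3360), (2845, 3618)], true, true),
  ([(2721, 3487)], true, true), ([(2721, 3487), (2845, 3360)], true, true),
  ([(2721, 3487), (2845, 3360), (3613, 3618)], false, true),
  ([(2721, 3487), (2845, 3360), (3613, 3618)], true, true),
  ([(2721, 3487), (2845, 3613)], true, true), ([(2721, 3487), (2845, 3618)], true, true),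
  ([(2721, 3487), (3360, 3613)], true, true), ([(2721, 3487), (3360, 3618)], true, true),
  ([(2721, 3487), (3613, 3618)], true, true), ([(2721, 3613)], true, true),
  ([(2721, 3613), (2845, 3360)], false, true), ([(2721, 3613), (2845, 3360)], true, true),
  ([(2721, 3613), (3360, 3487)], true, true), ([(2721, 3618)], true, true),
  ([(2721, 3618), (2845, 3360)], false, true), ([(2721, 3618), (2845, 3360)], true, true),
  ([(2721, 3618), (3360, 3487)], true, true), ([(2845, 3360)], true, true),
  ([(2845, 3487)], true, true), ([(2845, 3487), (3360, 3613)], true, true),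
  ([(2845, 3487), (3360, 3618)], true, true), ([(3360, 3487)], false, true),
  ([(3360, 3487)], true, true), ([(3360, 3487), (3613, 3618)], false, false),
  ([(3360, 3613)], false, true), ([(3360, 3613)], true, true), ([(3360, 3618)], false, true),
  ([(3360, 3618)], true, true), ([(3487, 3613)], true, true), ([(3487, 3618)], true, true)])

/-- Level 29. -/
def lv29 : Lvl := ([2845, 3613, 3742], [3742, 3487, 3360, 2721, 3618], [
  ([(2721, 3360)], false, true), ([(2721, 3360)], true, true),
  ([(2721, 3360), (3487, 3618)], true, true), ([(2721, 3360), (3487, 3742)], false, true),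
  ([(2721, 3360), (3487, 3742)], true, true), ([(2721, 3360), (3618, 3742)], true, true),
  ([(2721, 3487)], false, true), ([(2721, 3487)], true, true),
  ([(2721, 3487), (3360, 3618)], false, true), ([(2721, 3487), (3360, 3618)], true, true),
  ([(2721, 3487), (3360, 3742)], true, true), ([(2721, 3487), (3618, 3742)], true, true),
  ([(2721, 3618)], true, true), ([(2721, 3618), (3360, 3487)], true, true),
  ([(2721, 3618), (3360, 3742)], false, true), ([(2721, 3618), (3360, 3742)], true, true),
  ([(2721, 3742)], true, true), ([(2721, 3742), (3360, 3487)], true, true),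
  ([(2721, 3742), (3360, 3618)], true, true), ([(2721, 3742), (3487, 3618)], false, true),
  ([(2721, 3742), (3487, 3618)], true, true), ([(3360, 3487)], true, true),
  ([(3360, 3487), (3618, 3742)], false, false), ([(3360, 3618)], true, true),
  ([(3360, 3618), (3487, 3742)], true, true), ([(3360, 3742)], false, true),
  ([(3360, 3742)], true, true), ([(3487, 3742)], true, true)])

/-- Level 30. -/
def lv30 : Lvl := ([3742, 3871, 3873], [3487, 3871, 3360, 2721, 3873, 3618], [
  ([(2721, 3360)], true, true), ([(2721, 3360), (3487, 3618), (3871, 3873)], true, true),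
  ([(2721, 3360), (3487, 3871)], false, true), ([(2721, 3360), (3487, 3871)], true, true),
  ([(2721, 3360), (3487, 3873)], false, true), ([(2721, 3360), (3487, 3873)], true, true),
  ([(2721, 3360), (3618, 3871)], true, true), ([(2721, 3360), (3618, 3873)], true, true),
  ([(2721, 3360), (3871, 3873)], false, true), ([(2721, 3360), (3871, 3873)], true, true),
  ([(2721, 3487)], true, true), ([(2721, 3487), (3360, 3618)], true, true),
  ([(2721, 3487), (3360, 3618), (3871, 3873)], false, true),
  ([(2721, 3487), (3360, 3618), (3871, 3873)], true, true),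
  ([(2721, 3487), (3360, 3871)], true, true), ([(2721, 3487), (3360, 3873)], true, true),
  ([(2721, 3487), (3618, 3871)], true, true), ([(2721, 3487), (3618, 3873)], true, true),
  ([(2721, 3487), (3871, 3873)], false, true), ([(2721, 3487), (3871, 3873)], true, true),
  ([(2721, 3618), (3360, 3487), (3871, 3873)], true, true),
  ([(2721, 3618), (3360, 3871)], false, true), ([(2721, 3618), (3360, 3871)], true, true),
  ([(2721, 3618), (3360, 3873)], false, true), ([(2721, 3618), (3360, 3873)], true, true),
  ([(2721, 3618), (3871, 3873)], true, true), ([(2721, 3871)], true, true),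
  ([(2721, 3871), (3360, 3487)], true, true), ([(2721, 3871), (3360, 3618)], true, true),
  ([(2721, 3871), (3487, 3618)], false, true), ([(2721, 3871), (3487, 3618)], true, true),
  ([(2721, 3873)], true, true), ([(2721, 3873), (3360, 3487)], true, true),
  ([(2721, 3873), (3360, 3618)], true, true), ([(2721, 3873), (3487, 3618)], false, true),
  ([(2721, 3873), (3487, 3618)], true, true), ([(3360, 3487), (3618, 3871)], false, false),
  ([(3360, 3487), (3618, 3873)], false, true), ([(3360, 3487), (3871, 3873)], true, true),
  ([(3360, 3618), (3487, 3871)], true, true), ([(3360, 3618), (3487, 3873)], true, true),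
  ([(3360, 3618), (3871, 3873)], true, true), ([(3360, 3871)], false, true),
  ([(3360, 3871)], true, true), ([(3360, 3873)], false, true), ([(3360, 3873)], true, true),
  ([(3487, 3871)], true, true), ([(3487, 3873)], true, true)])

/-- Level 31. -/
def lv31 : Lvl := ([3487, 3871, 4000], [3360, 4000, 2721, 3873, 3618], [
  ([(2721, 3360)], true, true), ([(2721, 3360), (3618, 3873)], true, true),
  ([(2721, 3360), (3618, 4000)], true, true), ([(2721, 3360), (3873, 4000)], false, true),
  ([(2721, 3360), (3873, 4000)], true, true), ([(2721, 3618)], false, true),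
  ([(2721, 3618)], true, true), ([(2721, 3618), (3360, 3873)], true, true),
  ([(2721, 3618), (3360, 4000)], false, true), ([(2721, 3618), (3360, 4000)], true, true),
  ([(2721, 3618), (3873, 4000)], true, true), ([(2721, 3873)], false, true),
  ([(2721, 3873)], true, true), ([(2721, 3873), (3360, 3618)], false, true),
  ([(2721, 3873), (3360, 3618)], true, true), ([(2721, 3873), (3360, 4000)], true, true),
  ([(2721, 3873), (3618, 4000)], false, true), ([(2721, 3873), (3618, 4000)], true, true),
  ([(2721, 4000)], true, true), ([(2721, 4000), (3360, 3618)], true, true),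
  ([(2721, 4000), (3360, 3873)], true, true), ([(2721, 4000), (3618, 3873)], true, true),
  ([(3360, 3618)], false, false), ([(3360, 3618), (3873, 4000)], true, true),
  ([(3360, 3873)], true, true), ([(3360, 4000)], false, true), ([(3360, 4000)], true, true),
  ([(3360, 4000), (3618, 3873)], false, true), ([(3873, 4000)], true, true)])

/-- Level 32. -/
def lv32 : Lvl := ([3360, 4000, 4133], [2721, 3873, 3618, 4133], [
  ([(2721, 3618)], true, true), ([(2721, 3618), (3873, 4133)], true, true),
  ([(2721, 3873)], false, true), ([(2721, 3873)], true, true),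
  ([(2721, 3873), (3618, 4133)], false, true), ([(2721, 3873), (3618, 4133)], true, true),
  ([(2721, 4133)], true, true), ([(2721, 4133), (3618, 3873)], true, true),
  ([(3618, 3873)], true, true), ([(3618, 4133)], false, false), ([(3873, 4133)], true, true)])

/-- Level 33. -/
def lv33 : Lvl := ([2721, 3873, 4258, 4260], [3618, 4258, 4260, 4133], [
  ([(3618, 4133)], true, true), ([(3618, 4133), (4258, 4260)], false, false),
  ([(3618, 4258)], true, true), ([(3618, 4260)], true, true), ([(4133, 4258)], true, true),
  ([(4133, 4260)], true, true)])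

/-- Level 34. -/
def lv34 : Lvl := ([3618, 4258, 4387], [4387, 4260, 4133], [
  ([(4133, 4260)], false, false), ([(4133, 4387)], true, true), ([(4260, 4387)], true, true)])

/-- Level 35. -/
def lv35 : Lvl := ([4387, 4516, 4521], [4260, 4516, 4133, 4521], [
  ([(4133, 4260)], true, true), ([(4133, 4260), (4516, 4521)], false, false),
  ([(4133, 4516)], true, true), ([(4133, 4521)], true, true), ([(4260, 4516)], true, true),
  ([(4260, 4521)], true, true)])

/-- Level 36. -/
def lv36 : Lvl := ([4260, 4516, 4647, 4656], [4133, 4647, 4521, 4656], [
  ([(4133, 4521)], false, false), ([(4133, 4521), (4647, 4656)], true, true),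
  ([(4133, 4647)], true, true), ([(4133, 4656)], true, true), ([(4521, 4647)], true, true),
  ([(4521, 4656)], true, true)])

/-- Level 37. -/
def lv37 : Lvl := ([4133, 4774, 4779], [4774, 4647, 4521, 4779, 4656], [
  ([(4521, 4647), (4774, 4779)], true, true), ([(4521, 4656), (4774, 4779)], true, true),
  ([(4521, 4774)], false, true), ([(4521, 4774), (4647, 4656)], true, true),
  ([(4521, 4779)], false, false), ([(4521, 4779), (4647, 4656)], true, true),
  ([(4647, 4774)], true, true), ([(4647, 4779)], true, true), ([(4656, 4774)], true, true),
  ([(4656, 4779)], true, true)])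

/-- Level 38. -/
def lv38 : Lvl := ([4774, 4903, 4906], [4647, 4903, 4521, 4906, 4779, 4656], [
  ([(4521, 4647), (4779, 4903)], true, true), ([(4521, 4647), (4779, 4906)], true, true),
  ([(4521, 4656), (4779, 4903)], true, true), ([(4521, 4656), (4779, 4906)], true, true),
  ([(4521, 4779)], true, true), ([(4521, 4779), (4647, 4656), (4903, 4906)], true, true),
  ([(4521, 4779), (4903, 4906)], false, false), ([(4521, 4903)], false, true),
  ([(4521, 4903), (4647, 4656)], true, true), ([(4521, 4906)], false, true),
  ([(4521, 4906), (4647, 4656)], true, true), ([(4647, 4779), (4903, 4906)], true, true),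
  ([(4647, 4903)], true, true), ([(4647, 4906)], true, true),
  ([(4656, 4779), (4903, 4906)], true, true), ([(4656, 4903)], true, true),
  ([(4656, 4906)], true, true)])

/-- Level 39. -/
def lv39 : Lvl := ([4647, 4903, 5032], [5032, 4521, 4906, 4779, 4656], [
  ([(4521, 4656)], true, true), ([(4521, 4656), (4779, 5032)], true, true),
  ([(4521, 4779)], true, true), ([(4521, 4779), (4656, 4906)], true, true),
  ([(4521, 4779), (4906, 5032)], false, false), ([(4521, 4906)], true, true),
  ([(4521, 4906), (4656, 5032)], true, true), ([(4521, 5032)], false, true),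
  ([(4521, 5032), (4779, 4906)], true, true), ([(4656, 4779), (4906, 5032)], true, true),
  ([(4656, 5032)], true, true), ([(4779, 4906)], true, true), ([(4906, 5032)], true, true)])

/-- Level 40. -/
def lv40 : Lvl := ([5032, 5161, 5167], [4521, 5161, 4906, 4779, 5167, 4656], [
  ([(4521, 4656), (4779, 5161)], true, true), ([(4521, 4656), (4779, 5167)], true, true),
  ([(4521, 4656), (5161, 5167)], true, true),
  ([(4521, 4779), (4656, 4906), (5161, 5167)], true, true),
  ([(4521, 4779), (4906, 5161)], false, false), ([(4521, 4779), (4906, 5167)], false, true),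
  ([(4521, 4779), (5161, 5167)], true, true), ([(4521, 4906), (4656, 5161)], true, true),
  ([(4521, 4906), (4656, 5167)], true, true), ([(4521, 4906), (5161, 5167)], true, true),
  ([(4521, 5161)], false, true), ([(4521, 5161), (4779, 4906)], true, true),
  ([(4521, 5167)], false, true), ([(4521, 5167), (4779, 4906)], true, true),
  ([(4656, 4779), (4906, 5161)], true, true), ([(4656, 4779), (4906, 5167)], true, true),
  ([(4656, 5161)], true, true), ([(4656, 5167)], true, true),
  ([(4779, 4906), (5161, 5167)], true, true), ([(4906, 5161)], true, true),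
  ([(4906, 5167)], true, true)])

/-- Level 41. -/
def lv41 : Lvl := ([4521, 5161, 5290, 5293], [4906, 5290, 4779, 5293, 5167, 4656], [
  ([(4656, 4779)], true, true), ([(4656, 4779), (4906, 5167), (5290, 5293)], true, true),
  ([(4656, 4779), (4906, 5290)], true, true), ([(4656, 4779), (4906, 5293)], true, true),
  ([(4656, 4906)], true, true), ([(4656, 4906), (4779, 5167)], true, true),
  ([(4656, 5167)], true, true), ([(4656, 5167), (4906, 5290)], true, true),
  ([(4656, 5167), (4906, 5293)], true, true), ([(4656, 5167), (5290, 5293)], true, true),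
  ([(4656, 5290)], true, true), ([(4656, 5290), (4779, 5167)], true, true),
  ([(4656, 5293)], true, true), ([(4656, 5293), (4779, 5167)], true, true),
  ([(4779, 4906)], false, false), ([(4779, 4906), (5167, 5290)], true, true),
  ([(4779, 4906), (5167, 5293)], true, true), ([(4779, 5167)], true, true),
  ([(4779, 5290), (4906, 5167)], false, true), ([(4779, 5293), (4906, 5167)], false, true),
  ([(4906, 5167)], true, true), ([(4906, 5167), (5290, 5293)], true, true),
  ([(4906, 5290)], true, true), ([(4906, 5293)], true, true), ([(5167, 5290)], false, true),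
  ([(5167, 5293)], false, true)])

/-- Level 42. -/
def lv42 : Lvl := ([4906, 5290, 5420], [4779, 5420, 5293, 5167, 4656], [
  ([(4656, 4779), (5167, 5293)], true, true), ([(4656, 4779), (5293, 5420)], true, true),
  ([(4656, 5167), (5293, 5420)], true, true), ([(4656, 5420)], true, true),
  ([(4656, 5420), (4779, 5167)], true, true), ([(4779, 5167)], false, true),
  ([(4779, 5167)], true, true), ([(4779, 5293), (5167, 5420)], false, true),
  ([(4779, 5420)], false, false), ([(4779, 5420), (5167, 5293)], true, true),
  ([(5167, 5293)], true, true), ([(5167, 5420)], false, true), ([(5167, 5420)], true, true),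
  ([(5293, 5420)], true, true)])

/-- Level 43. -/
def lv43 : Lvl := ([4779, 5548, 5549], [5420, 5548, 5293, 5549, 5167, 4656], [
  ([(4656, 5167), (5293, 5420), (5548, 5549)], true, true),
  ([(4656, 5420), (5167, 5548)], true, true), ([(4656, 5420), (5167, 5549)], true, true),
  ([(4656, 5420), (5548, 5549)], true, true), ([(4656, 5548), (5167, 5293)], true, true),
  ([(4656, 5548), (5293, 5420)], true, true), ([(4656, 5549), (5167, 5293)], true, true),
  ([(4656, 5549), (5293, 5420)], true, true), ([(5167, 5293), (5420, 5548)], true, true),
  ([(5167, 5293), (5420, 5549)], true, true), ([(5167, 5293), (5548, 5549)], true, true),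
  ([(5167, 5420)], true, true), ([(5167, 5420), (5293, 5548)], false, true),
  ([(5167, 5420), (5293, 5549)], false, true), ([(5167, 5420), (5548, 5549)], false, true),
  ([(5167, 5420), (5548, 5549)], true, true), ([(5167, 5548)], false, true),
  ([(5167, 5548)], true, true), ([(5167, 5549)], false, true), ([(5167, 5549)], true, true),
  ([(5293, 5420), (5548, 5549)], true, true), ([(5420, 5548)], false, true),
  ([(5420, 5549)], false, false)])

/-- Level 44. -/
def lv44 : Lvl := ([5420, 5548, 5682], [5293, 5549, 5167, 4656, 5682], [
  ([(4656, 5167)], true, true), ([(4656, 5167), (5293, 5549)], true, true),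
  ([(4656, 5293)], true, true), ([(4656, 5549)], true, true),
  ([(4656, 5549), (5293, 5682)], true, true), ([(4656, 5682), (5167, 5293)], true, true),
  ([(4656, 5682), (5167, 5549)], true, true), ([(5167, 5293)], false, true),
  ([(5167, 5293), (5549, 5682)], true, true), ([(5167, 5549)], false, true),
  ([(5167, 5549)], true, true), ([(5167, 5682)], false, true), ([(5167, 5682)], true, true),
  ([(5167, 5682), (5293, 5549)], false, true), ([(5293, 5549)], true, true),
  ([(5549, 5682)], false, false)])

/-- Level 45. -/
def lv45 : Lvl := ([5293, 5549, 5806], [5806, 5167, 4656, 5682], [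
  ([(4656, 5682)], true, true), ([(4656, 5682), (5167, 5806)], true, true),
  ([(4656, 5806)], true, true), ([(5167, 5682)], true, true), ([(5167, 5806)], false, true),
  ([(5167, 5806)], true, true), ([(5682, 5806)], false, false)])

/-- Level 46. -/
def lv46 : Lvl := ([5806, 5935, 5937], [5167, 5935, 4656, 5937, 5682], [
  ([(4656, 5682), (5167, 5935)], true, true), ([(4656, 5682), (5167, 5937)], true, true),
  ([(4656, 5682), (5935, 5937)], true, true), ([(4656, 5935)], true, true),
  ([(4656, 5937)], true, true), ([(5167, 5682), (5935, 5937)], true, true),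
  ([(5167, 5935)], false, true), ([(5167, 5935)], true, true), ([(5167, 5937)], false, true),
  ([(5167, 5937)], true, true), ([(5682, 5935)], false, false), ([(5682, 5937)], false, true)])

/-- Level 47. -/
def lv47 : Lvl := ([5167, 5935, 6067], [4656, 5937, 5682, 6067], [
  ([(4656, 5682), (5937, 6067)], true, true), ([(4656, 6067)], true, true),
  ([(5682, 5937)], true, true), ([(5682, 6067)], false, false), ([(5937, 6067)], false, true),
  ([(5937, 6067)], true, true)])

/-- Level 48. -/
def lv48 : Lvl := ([4656, 6193, 6197], [5937, 6193, 5682, 6067, 6197], [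
  ([(5682, 5937), (6193, 6197)], true, true), ([(5682, 6067)], true, true),
  ([(5682, 6067), (6193, 6197)], false, false), ([(5682, 6193), (5937, 6067)], true, true),
  ([(5682, 6197), (5937, 6067)], true, true), ([(5937, 6067)], true, true),
  ([(5937, 6067), (6193, 6197)], false, true), ([(5937, 6067), (6193, 6197)], true, true),
  ([(6067, 6193)], true, true), ([(6067, 6197)], true, true)])

/-- Level 49. -/
def lv49 : Lvl := ([5937, 6193, 6324], [5682, 6067, 6324, 6197], [
  ([(5682, 6067)], true, true), ([(5682, 6067), (6197, 6324)], false, false),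
  ([(5682, 6197)], true, true), ([(5682, 6197), (6067, 6324)], true, true),
  ([(6067, 6197)], false, true), ([(6067, 6197)], true, true), ([(6067, 6324)], true, true)])

/-- Level 50. -/
def lv50 : Lvl := ([5682, 6451, 6453], [6067, 6451, 6324, 6197, 6453], [
  ([(6067, 6197)], true, true), ([(6067, 6197), (6451, 6453)], false, true),
  ([(6067, 6197), (6451, 6453)], true, true), ([(6067, 6324), (6197, 6451)], true, true),
  ([(6067, 6324), (6197, 6453)], true, true), ([(6067, 6324), (6451, 6453)], true, true),
  ([(6067, 6451)], true, true), ([(6067, 6451), (6197, 6324)], false, true),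
  ([(6067, 6453)], true, true), ([(6067, 6453), (6197, 6324)], false, false),
  ([(6197, 6451)], true, true), ([(6197, 6453)], true, true)])

/-- Level 51. -/
def lv51 : Lvl := ([6067, 6451, 6580, 6582], [6324, 6580, 6197, 6453, 6582], [
  ([(6197, 6324)], true, true), ([(6197, 6324), (6453, 6580)], false, true),
  ([(6197, 6324), (6453, 6582)], false, false), ([(6197, 6453)], false, true),
  ([(6197, 6453)], true, true), ([(6197, 6453), (6324, 6580)], true, true),
  ([(6197, 6453), (6324, 6582)], true, true), ([(6197, 6453), (6580, 6582)], true, true),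
  ([(6197, 6580)], true, true), ([(6197, 6582)], true, true), ([(6324, 6453)], true, true),
  ([(6453, 6580)], true, true), ([(6453, 6582)], true, true)])

/-- Level 52. -/
def lv52 : Lvl := ([6324, 6580, 6716], [6197, 6453, 6582, 6716], [
  ([(6197, 6453)], false, true), ([(6197, 6453)], true, true),
  ([(6197, 6453), (6582, 6716)], true, true), ([(6197, 6716)], true, true),
  ([(6197, 6716), (6453, 6582)], false, false), ([(6453, 6716)], true, true)])

/-- Level 53. -/
def lv53 : Lvl := ([6197, 6453, 6839, 6842], [6582, 6839, 6842, 6716], [
  ([(6582, 6716)], false, false), ([(6716, 6839)], true, true), ([(6716, 6842)], true, true)])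

/-- Level 54. -/
def lv54 : Lvl := ([6582, 6967, 6981], [6839, 6967, 6842, 6716, 6981], [
  ([(6716, 6839), (6967, 6981)], true, true), ([(6716, 6842), (6967, 6981)], true, true),
  ([(6716, 6967)], false, false), ([(6716, 6981)], false, true)])

/-- Level 55. -/
def lv55 : Lvl := ([6839, 6967, 7096], [7096, 6842, 6716, 6981], [
  ([(6716, 6842), (6981, 7096)], true, true), ([(6716, 6981)], true, true),
  ([(6716, 7096)], false, false)])

/-- Level 56. -/
def lv56 : Lvl := ([7096, 7225, 7227], [7225, 6842, 7227, 6716, 6981], [
  ([(6716, 6842), (6981, 7225)], true, true), ([(6716, 6842), (6981, 7227)], true, true),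
  ([(6716, 6981), (7225, 7227)], true, true), ([(6716, 7225)], false, true),
  ([(6716, 7227)], false, false)])

/-- Level 57. -/
def lv57 : Lvl := ([7225, 7354, 7357], [6842, 7354, 7227, 6716, 7357, 6981], [
  ([(6716, 6842), (6981, 7227), (7354, 7357)], true, true),
  ([(6716, 6842), (6981, 7354)], true, true), ([(6716, 6842), (6981, 7357)], true, true),
  ([(6716, 6981), (7227, 7354)], true, true), ([(6716, 6981), (7227, 7357)], true, true),
  ([(6716, 7227)], true, true), ([(6716, 7227), (7354, 7357)], false, false),
  ([(6716, 7354)], false, true), ([(6716, 7357)], false, true)])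

/-- Level 58. -/
def lv58 : Lvl := ([6842, 7354, 7486], [7227, 6716, 7357, 7486, 6981], [
  ([(6716, 6981)], true, true), ([(6716, 6981), (7227, 7486)], true, true),
  ([(6716, 7227), (7357, 7486)], false, false), ([(6716, 7357)], true, true),
  ([(6716, 7357), (6981, 7227)], true, true), ([(6716, 7486)], false, true),
  ([(6716, 7486), (6981, 7357)], true, true)])

/-- Level 59. -/
def lv59 : Lvl := ([7227, 7612, 7614], [6716, 7612, 7357, 7486, 7614, 6981], [
  ([(6716, 6981), (7486, 7612)], true, true), ([(6716, 6981), (7486, 7614)], true, true),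
  ([(6716, 6981), (7612, 7614)], true, true), ([(6716, 7357), (6981, 7612)], true, true),
  ([(6716, 7357), (6981, 7614)], true, true), ([(6716, 7357), (7612, 7614)], true, true),
  ([(6716, 7486)], true, true), ([(6716, 7486), (6981, 7357), (7612, 7614)], true, true),
  ([(6716, 7486), (7612, 7614)], false, true), ([(6716, 7612), (7357, 7486)], false, true),
  ([(6716, 7614), (7357, 7486)], false, false)])

/-- Level 60. -/
def lv60 : Lvl := ([6716, 7612, 7741, 7743], [7357, 7741, 7486, 7614, 7743, 6981], [
  ([(6981, 7357)], true, true), ([(6981, 7357), (7486, 7614)], true, true),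
  ([(6981, 7486)], true, true), ([(6981, 7614)], true, true),
  ([(6981, 7614), (7357, 7741)], true, true), ([(6981, 7614), (7357, 7743)], true, true),
  ([(6981, 7741), (7486, 7614)], true, true), ([(6981, 7743), (7486, 7614)], true, true),
  ([(7357, 7486), (7614, 7741)], false, true), ([(7357, 7486), (7614, 7743)], false, false),
  ([(7357, 7614)], true, true), ([(7486, 7614)], false, true), ([(7486, 7741)], true, true),
  ([(7486, 7743)], true, true)])

/-- Level 61. -/
def lv61 : Lvl := ([7357, 7741, 7873], [7486, 7614, 7743, 7873, 6981], [
  ([(6981, 7614), (7743, 7873)], true, true), ([(6981, 7873)], true, true),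
  ([(6981, 7873), (7486, 7614)], true, true), ([(7486, 7614)], false, true),
  ([(7486, 7614)], true, true), ([(7486, 7873)], true, true),
  ([(7486, 7873), (7614, 7743)], false, false), ([(7614, 7873)], true, true)])

/-- Level 62. -/
def lv62 : Lvl := ([7486, 7614, 8000, 8002], [7743, 8000, 7873, 8002, 6981], [
  ([(6981, 7873), (8000, 8002)], true, true), ([(6981, 8000), (7743, 7873)], true, true),
  ([(6981, 8002), (7743, 7873)], true, true), ([(7743, 7873)], false, false),
  ([(7873, 8000)], true, true), ([(7873, 8002)], true, true)])

/-- Level 63. -/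
def lv63 : Lvl := ([7743, 8128, 8132], [8000, 8128, 7873, 8002, 8132, 6981], [
  ([(6981, 7873), (8000, 8002), (8128, 8132)], true, true),
  ([(6981, 8000), (7873, 8128)], true, true), ([(6981, 8000), (7873, 8132)], true, true),
  ([(6981, 8002), (7873, 8128)], true, true), ([(6981, 8002), (7873, 8132)], true, true),
  ([(7873, 8000), (8128, 8132)], true, true), ([(7873, 8002), (8128, 8132)], true, true),
  ([(7873, 8128)], false, false), ([(7873, 8132)], false, true)])

/-- Level 64. -/
def lv64 : Lvl := ([8000, 8128, 8259], [7873, 8002, 8259, 8132, 6981], [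
  ([(6981, 7873)], true, true), ([(6981, 7873), (8002, 8132)], true, true),
  ([(6981, 8002), (7873, 8259)], true, true), ([(6981, 8259), (7873, 8132)], true, true),
  ([(7873, 8002), (8132, 8259)], true, true), ([(7873, 8132)], true, true),
  ([(7873, 8259)], false, false)])

/-- Level 65. -/
def lv65 : Lvl := ([7873, 8386, 8387], [8002, 8386, 8259, 8387, 8132, 6981], [
  ([(6981, 8002), (8259, 8386)], true, true), ([(6981, 8002), (8259, 8387)], true, true),
  ([(6981, 8259), (8132, 8386)], true, true), ([(6981, 8259), (8132, 8387)], true, true),
  ([(6981, 8386)], true, true), ([(6981, 8386), (8002, 8132)], true, true),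
  ([(6981, 8387)], true, true), ([(6981, 8387), (8002, 8132)], true, true),
  ([(8002, 8386), (8132, 8259)], true, true), ([(8002, 8387), (8132, 8259)], true, true),
  ([(8132, 8386)], true, true), ([(8132, 8387)], true, true), ([(8259, 8386)], false, false),
  ([(8259, 8387)], false, true)])

/-- Level 66. -/
def lv66 : Lvl := ([8002, 8386, 8516], [8259, 8387, 8132, 8516, 6981], [
  ([(6981, 8132)], true, true), ([(6981, 8259)], true, true),
  ([(6981, 8259), (8132, 8516)], true, true), ([(6981, 8387), (8132, 8516)], true, true),
  ([(6981, 8516)], true, true), ([(6981, 8516), (8259, 8387)], true, true),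
  ([(8132, 8259), (8387, 8516)], true, true), ([(8132, 8516)], true, true),
  ([(8259, 8387)], true, true), ([(8259, 8516)], false, false)])

/-- Level 67. -/
def lv67 : Lvl := ([8259, 8387, 8645], [8132, 8516, 6981, 8645], [
  ([(6981, 8645)], true, true), ([(6981, 8645), (8132, 8516)], true, true),
  ([(8132, 8516)], true, true), ([(8516, 8645)], false, false)])

/-- Level 68. -/
def lv68 : Lvl := ([8132, 8516, 8773], [6981, 8645, 8773], [
  ([(8645, 8773)], false, false)])

/-- Level 69. -/
def lv69 : Lvl := ([6981, 8645, 8773], [], [
  ])

/-- The certificate. -/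
def L70 : List Lvl := [
  lv0, lv1, lv2, lv3, lv4, lv5, lv6, lv7, lv8, lv9, lv10, lv11, lv12, lv13, lv14, lv15, lv16,
  lv17, lv18, lv19, lv20, lv21, lv22, lv23, lv24, lv25, lv26, lv27, lv28, lv29, lv30, lv31, lv32,
  lv33, lv34, lv35, lv36, lv37, lv38, lv39, lv40, lv41, lv42, lv43, lv44, lv45, lv46, lv47, lv48,
  lv49, lv50, lv51, lv52, lv53, lv54, lv55, lv56, lv57, lv58, lv59, lv60, lv61, lv62, lv63, lv64,
  lv65, lv66, lv67, lv68, lv69]

theorem wf70 : wf E70 70 = true := by decide +kernel

theorem run70 : run E70 C70 70 0 L70 [([], false, false)] = true := by decide +kernel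

theorem len70 : L70.length = 70 := by decide

end Pool.Agent.Lib.MP_321260_co
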