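import Pool.Agent.Lib.MP_321260_co.Data
import Pool.Agent.Lib.MP_321260_co.Cycles

set_option autoImplicit false

/-!
The graph with 70 vertices: it is Hamiltonian, has minimum degree 3, and every cycle of it that
misses at most one vertex is the designated Hamiltonian cycle.
-/

namespace Pool.Agent.Lib.MP_321260_co

/-- The code of the edge `a b`. -/
def code (a b : ℕ) : ℕ := if a < b then a * 128 + b else b * 128 + a

theorem code_comm (a b : ℕ) : code a b = code b a := by
  unfold code
  rcases lt_trichotomy a b with h | h | h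
  · rw [if_pos h, if_neg (by omega)]
  · subst h; rfl
  · rw [if_neg (by omega), if_pos h]

theorem src_dst_lt : ∀ g ∈ E70, src g < dst g ∧ dst g < 70 := by
  have h := wf70
  rw [wf, Bool.and_eq_true, List.all_eq_true] at h
  intro g hg
  have := h.2 g hg
  simpa using this

theorem code_src_dst (g : ℕ) (h : src g < dst g) : code (src g) (dst g) = g := by
  unfold code
  rw [if_pos h]
  unfold src dst
  omega

theorem src_code {a b : ℕ} (h : a < b) (hb : b < 128) : src (code a b) = a := by
  unfold code src
  rw [if_pos h]; omega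

theorem dst_code {a b : ℕ} (h : a < b) (hb : b < 128) : dst (code a b) = b := by
  unfold code dst
  rw [if_pos h]; omega

/-- The graph. -/
def G70 : SimpleGraph (Fin 70) where
  Adj a b := code a.1 b.1 ∈ E70
  symm := ⟨by
    intro a b h
    rw [code_comm]
    exact h⟩
  loopless := ⟨by
    intro a h
    have h1 := src_dst_lt _ h
    unfold code src dst at h1
    have := a.2
    rw [if_neg (by omega)] at h1
    omega⟩

instance : DecidableRel G70.Adj := fun a b => inferInstanceAs (Decidable (code a.1 b.1 ∈ E70))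

theorem G70_adj (a b : Fin 70) : G70.Adj a b ↔ code a.1 b.1 ∈ E70 := Iff.rfl

/-- From a cycle relation to a solution. -/
theorem sol_of_cycRel {R : Fin 70 → Fin 70 → Prop} {vis : Fin 70 → Prop} (hR : CycRel R vis)
    (hadj : ∀ a b, R a b → G70.Adj a b) (hone : ∀ a b, a ≠ b → vis a ∨ vis b) :
    ∃ x : ℕ → Bool, Sol E70 70 x ∧ (∀ a b : Fin 70, G70.Adj a b →
      (R a b ↔ x (code a.1 b.1) = true)) ∧ ∀ a, vis a ↔ Vis E70 x a.1 := by
  classical
  let x : ℕ → Bool := fun g => decide (∃ a b : Fin 70, a.1 = src g ∧ b.1 = dst g ∧ R a b)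
  have hx : ∀ a b : Fin 70, G70.Adj a b → (R a b ↔ x (code a.1 b.1) = true) := by
    intro a b hab
    have hne : a.1 ≠ b.1 := fun e => hab.ne (Fin.ext e)
    have ha := a.2
    have hb := b.2
    simp only [x, decide_eq_true_eq]
    rcases Nat.lt_or_gt_of_ne hne with h | h
    · rw [src_code h (by omega), dst_code h (by omega)]
      constructor
      · intro hr; exact ⟨a, b, rfl, rfl, hr⟩
      · rintro ⟨a', b', h1, h2, hr⟩
        rw [Fin.ext h1, Fin.ext h2] at hr
        exact hr
    · rw [code_comm, src_code h (by omega), dst_code h (by omega)]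
      constructor
      · intro hr; exact ⟨b, a, rfl, rfl, hR.symm _ _ hr⟩
      · rintro ⟨a', b', h1, h2, hr⟩
        rw [Fin.ext h1, Fin.ext h2] at hr
        exact hR.symm _ _ hr
  -- edges used at a vertex
  have hinc : ∀ (a : Fin 70) (g : ℕ), (g ∈ E70 ∧ x g = true ∧ incid a.1 g = true) ↔
      ∃ b, R a b ∧ g = code a.1 b.1 := by
    intro a g
    constructor
    · rintro ⟨hg, hxg, hi⟩
      have hlt := src_dst_lt g hg
      simp only [x, decide_eq_true_eq] at hxg
      obtain ⟨c, d, hc, hd, hr⟩ := hxg
      rcases incid_iff.1 hi with e | e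
      · have hca : c = a := Fin.ext (hc.trans e)
        subst hca
        exact ⟨d, hr, by rw [hc, hd, code_src_dst g hlt.1]⟩
      · have hda : d = a := Fin.ext (hd.trans e)
        subst hda
        exact ⟨c, hR.symm _ _ hr, by rw [hc, hd, code_comm, code_src_dst g hlt.1]⟩
    · rintro ⟨b, hr, rfl⟩
      have hab := hadj a b hr
      refine ⟨hab, (hx a b hab).1 hr, ?_⟩
      have hne : a.1 ≠ b.1 := fun e => hab.ne (Fin.ext e)
      have ha := a.2
      have hb := b.2
      rw [incid_iff]
      rcases Nat.lt_or_gt_of_ne hne with h | h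
      · left; exact src_code h (by omega)
      · right; rw [code_comm]; exact dst_code h (by omega)
  have hvis : ∀ a, vis a ↔ Vis E70 x a.1 := by
    intro a
    constructor
    · intro h
      obtain ⟨b, _, _, hb⟩ := hR.two a h
      have := (hinc a (code a.1 b.1)).2 ⟨b, (hb b).2 (Or.inl rfl), rfl⟩
      exact ⟨_, this.1, this.2.1, this.2.2⟩
    · rintro ⟨g, hg, hxg, hi⟩
      obtain ⟨b, hr, _⟩ := (hinc a g).1 ⟨hg, hxg, hi⟩
      by_contra hc
      exact hR.none a hc b hr
  have hnd : E70.Nodup := by
    have h := wf70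
    rw [wf, Bool.and_eq_true] at h
    simpa using h.1
  have hcode : ∀ (a b c : Fin 70), a ≠ b → a ≠ c → code a.1 b.1 = code a.1 c.1 → b = c := by
    intro a b c hab hac h
    have h1 : a.1 ≠ b.1 := fun e => hab (Fin.ext e)
    have h2 : a.1 ≠ c.1 := fun e => hac (Fin.ext e)
    have := a.2
    have := b.2
    have := c.2
    apply Fin.ext
    unfold code at h
    split_ifs at h <;> omega
  refine ⟨x, ⟨?_, ?_, ?_⟩, hx, hvis⟩
  · intro v hv
    set T := (E70.filter (incid v)).filter x with hT
    have hTnd : T.Nodup := (hnd.filter _).filter _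
    have hmem : ∀ g, g ∈ T ↔ ∃ b, R ⟨v, hv⟩ b ∧ g = code v b.1 := by
      intro g
      rw [hT, mem_use]
      exact hinc ⟨v, hv⟩ g
    by_cases hvv : vis ⟨v, hv⟩
    · right
      obtain ⟨b, c, hbc, hn⟩ := hR.two _ hvv
      have hb : R ⟨v, hv⟩ b := (hn b).2 (Or.inl rfl)
      have hc : R ⟨v, hv⟩ c := (hn c).2 (Or.inr rfl)
      have e : T.toFinset = {code v b.1, code v c.1} := by
        ext g
        rw [List.mem_toFinset, hmem]
        simp only [Finset.mem_insert, Finset.mem_singleton]
        constructor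
        · rintro ⟨d, hd, rfl⟩
          rcases (hn d).1 hd with rfl | rfl
          · exact Or.inl rfl
          · exact Or.inr rfl
        · rintro (rfl | rfl)
          · exact ⟨b, hb, rfl⟩
          · exact ⟨c, hc, rfl⟩
      rw [← List.toFinset_card_of_nodup hTnd, e, Finset.card_pair]
      intro h
      exact hbc (hcode ⟨v, hv⟩ b c (hadj _ _ hb).ne (hadj _ _ hc).ne h)
    · left
      rw [List.length_eq_zero_iff, List.eq_nil_iff_forall_not_mem]
      intro g hg
      obtain ⟨b, hb, _⟩ := (hmem g).1 hg
      exact hR.none _ hvv _ hb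
  · intro v w hv hw hvw
    rcases hone ⟨v, hv⟩ ⟨w, hw⟩ (fun e => hvw (congrArg Fin.val e)) with h | h
    · exact Or.inl ((hvis _).1 h)
    · exact Or.inr ((hvis _).1 h)
  · intro U hU v w hv hw h1 h2
    have := hR.conn (fun a => U a.1 = true) (by
      intro a b hab
      have hA := hadj a b hab
      have h3 := (hx a b hA).1 hab
      have h4 := hU _ hA h3
      have hne : a.1 ≠ b.1 := fun e => hA.ne (Fin.ext e)
      have ha := a.2
      have hb := b.2
      rcases Nat.lt_or_gt_of_ne hne with h | h
      · rw [src_code h (by omega), dst_code h (by omega)] at h4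
        rw [h4]
      · rw [code_comm, src_code h (by omega), dst_code h (by omega)] at h4
        rw [h4]) ⟨v, hv⟩ ⟨w, hw⟩ ((hvis _).2 h1) ((hvis _).2 h2)
    exact Bool.eq_iff_iff.2 this

/-- Uniqueness: a cycle of the graph that misses at most one vertex is the designated one. -/
theorem unique_cycle {R : Fin 70 → Fin 70 → Prop} {vis : Fin 70 → Prop} (hR : CycRel R vis)
    (hadj : ∀ a b, R a b → G70.Adj a b) (hone : ∀ a b, a ≠ b → vis a ∨ vis b) (a b : Fin 70) :
    R a b ↔ (code a.1 b.1 ∈ E70 ∧ code a.1 b.1 ∈ C70) := by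
  obtain ⟨x, hs, hx, _⟩ := sol_of_cycRel hR hadj hone
  have h := sound hs wf70 L70 len70 run70
  constructor
  · intro hr
    have hab := hadj a b hr
    have h1 := (hx a b hab).1 hr
    rw [h _ hab] at h1
    exact ⟨hab, by simpa using h1⟩
  · rintro ⟨hab, hc⟩
    rw [hx a b hab, h _ hab]
    simpa using hc

/-- Table lookup. -/
def look (L : List ℕ) (a : Fin 70) : Fin 70 := ⟨L.getD a.1 0 % 70, Nat.mod_lt _ (by decide)⟩

/-- The tables list cycle edges and three different neighbours. -/
theorem tables : ∀ a : Fin 70,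
    (code a.1 (look nxt70 a).1 ∈ E70 ∧ code a.1 (look nxt70 a).1 ∈ C70) ∧
    code a.1 (look prv70 a).1 ∈ E70 ∧ code a.1 (look thd70 a).1 ∈ E70 ∧
    look nxt70 a ≠ look prv70 a ∧ look nxt70 a ≠ look thd70 a ∧ look prv70 a ≠ look thd70 a := by
  decide +kernel

/-- Every vertex is visited. -/
theorem vis_all {R : Fin 70 → Fin 70 → Prop} {vis : Fin 70 → Prop} (hR : CycRel R vis)
    (hadj : ∀ a b, R a b → G70.Adj a b) (hone : ∀ a b, a ≠ b → vis a ∨ vis b) (a : Fin 70) :
    vis a := by
  by_contra hc
  exact hR.none a hc _ ((unique_cycle hR hadj hone a (look nxt70 a)).2 (tables a).1)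

theorem degree_ge (a : Fin 70) : 3 ≤ G70.degree a := by
  obtain ⟨⟨h1, _⟩, h2, h3, h4, h5, h6⟩ := tables a
  rw [← SimpleGraph.card_neighborFinset_eq_degree]
  have : ({look nxt70 a, look prv70 a, look thd70 a} : Finset (Fin 70)) ⊆
      G70.neighborFinset a := by
    intro b hb
    rw [SimpleGraph.mem_neighborFinset]
    simp only [Finset.mem_insert, Finset.mem_singleton] at hb
    rcases hb with rfl | rfl | rfl
    · exact h1
    · exact h2
    · exact h3
  calc 3 = ({look nxt70 a, look prv70 a, look thd70 a} : Finset (Fin 70)).card := by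
        rw [Finset.card_eq_three.2 ⟨_, _, _, h4, h5, h6, rfl⟩]
    _ ≤ _ := Finset.card_le_card this

/-- The designated cycle as a closed list of vertices. -/
def cycF : List (Fin 70) := (cyc70 ++ [0]).map fun i => ⟨i % 70, Nat.mod_lt _ (by decide)⟩

theorem cycF_ne : cycF ≠ [] := by decide

theorem cycF_chain : cycF.IsChain G70.Adj := by decide +kernel

theorem cycF_ends : cycF.getLast cycF_ne = cycF.head cycF_ne := by decide

theorem cycF_nodup : cycF.tail.Nodup := by decide +kernel

theorem cycF_len : cycF.length = 71 := by decide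

theorem ham70 : G70.IsHamiltonian := by
  intro _
  have hl : ((SimpleGraph.Walk.ofSupport cycF cycF_ne cycF_chain).copy rfl cycF_ends).length
      = 70 := by
    rw [SimpleGraph.Walk.length_copy, SimpleGraph.Walk.length_ofSupport, cycF_len]
  refine ⟨_, (SimpleGraph.Walk.ofSupport cycF cycF_ne cycF_chain).copy rfl cycF_ends, ?_⟩
  rw [SimpleGraph.Walk.isHamiltonianCycle_iff_isCycle_and_length_eq]
  refine ⟨?_, by rw [hl, Fintype.card_fin]⟩
  rw [SimpleGraph.Walk.isCycle_iff_isPath_tail_and_le_length]
  refine ⟨?_, by rw [hl]; decide⟩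
  rw [SimpleGraph.Walk.isPath_def, SimpleGraph.Walk.support_tail_of_not_nil]
  · rw [SimpleGraph.Walk.support_copy, SimpleGraph.Walk.support_ofSupport]
    exact cycF_nodup
  · rw [← SimpleGraph.Walk.length_eq_zero_iff, hl]
    decide

end Pool.Agent.Lib.MP_321260_co
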